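import Pool.Agent.W_MP_68deb0_h42.Basic

set_option autoImplicit false

namespace Pool.Agent.W_MP_68deb0_h42

open Finset

theorem Gam_nonneg (n : ℕ) (s : ℝ) (hs : 0 ≤ s) : 0 ≤ Gam n s := by
  cases n with
  | zero => exact hs
  | succ n => exact Real.sqrt_nonneg _

theorem Gam_mono (n : ℕ) (s t : ℝ) (hs : 0 ≤ s) (hst : s ≤ t) : Gam n s ≤ Gam n t := by
  induction n with
  | zero => exact hst
  | succ n ih => exact Real.sqrt_le_sqrt ih

theorem Gam_le_one (n : ℕ) (s : ℝ) (hs : 0 ≤ s) (h1 : s ≤ 1) : Gam n s ≤ 1 := by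
  induction n with
  | zero => exact h1
  | succ n ih => exact Real.sqrt_le_one.2 ih

theorem Gam_le_sqrt {x : ℝ} (h0 : 0 ≤ x) (h1 : x ≤ 1) : x ≤ √x := by
  apply Real.le_sqrt_of_sq_le
  nlinarith

theorem Gam_le_succ (n : ℕ) (s : ℝ) (hs : 0 ≤ s) (h1 : s ≤ 1) : Gam n s ≤ Gam (n + 1) s :=
  Gam_le_sqrt (Gam_nonneg n s hs) (Gam_le_one n s hs h1)

theorem le_Gam (n : ℕ) (s : ℝ) (hs : 0 ≤ s) (h1 : s ≤ 1) : s ≤ Gam n s := by
  induction n with
  | zero => exact le_rfl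
  | succ n ih => exact ih.trans (Gam_le_succ n s hs h1)

theorem Gam_le_of_le {m n : ℕ} (h : m ≤ n) (s : ℝ) (hs : 0 ≤ s) (h1 : s ≤ 1) :
    Gam m s ≤ Gam n s := by
  induction n, h using Nat.le_induction with
  | base => exact le_rfl
  | succ n _ ih => exact ih.trans (Gam_le_succ n s hs h1)

theorem Gam_pow (n : ℕ) (t : ℝ) (ht : 0 ≤ t) : Gam n (t ^ 2 ^ n) = t := by
  induction n generalizing t with
  | zero => simp [Gam]
  | succ n ih =>
    have h1 : t ^ 2 ^ (n + 1) = (t ^ 2) ^ 2 ^ n := by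
      rw [← pow_mul, pow_succ, mul_comm]
    rw [h1]
    show √(Gam n ((t ^ 2) ^ 2 ^ n)) = t
    rw [ih (t ^ 2) (sq_nonneg t), Real.sqrt_sq ht]

/-- The moduli `6 s + ε n * Gam n s` are uniformly small if `ε n ≤ 1 / (n + 1)`. -/
theorem Gam_unif (r : ℝ) (hr : 0 < r) : ∃ s : ℝ, 0 < s ∧ s ≤ 1 ∧ ∀ n : ℕ,
    6 * s + 1 / ((n : ℝ) + 1) * Gam n s ≤ r := by
  obtain ⟨n0, hn0⟩ := exists_nat_one_div_lt (half_pos hr)
  set t : ℝ := min (r / 2) 1 with ht
  have ht0 : 0 < t := lt_min (half_pos hr) one_pos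
  have ht1 : t ≤ 1 := min_le_right _ _
  have htr : t ≤ r / 2 := min_le_left _ _
  set s : ℝ := min (r / 12) (t ^ 2 ^ n0) with hsdef
  have hs0 : 0 < s := lt_min (by linarith) (pow_pos ht0 _)
  have hs1 : s ≤ 1 := (min_le_right _ _).trans (pow_le_one₀ ht0.le ht1)
  have hsr : s ≤ r / 12 := min_le_left _ _
  refine ⟨s, hs0, hs1, fun n => ?_⟩
  have hG0 : 0 ≤ Gam n s := Gam_nonneg n s hs0.le
  have hpos : (0 : ℝ) < (n : ℝ) + 1 := by positivity
  have key : 1 / ((n : ℝ) + 1) * Gam n s ≤ r / 2 := by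
    rcases le_total n n0 with h | h
    · have h1 : Gam n s ≤ r / 2 := by
        calc Gam n s ≤ Gam n0 s := Gam_le_of_le h s hs0.le hs1
          _ ≤ Gam n0 (t ^ 2 ^ n0) := Gam_mono n0 _ _ hs0.le (min_le_right _ _)
          _ = t := Gam_pow n0 t ht0.le
          _ ≤ r / 2 := htr
      have h2 : 1 / ((n : ℝ) + 1) ≤ 1 := by
        rw [div_le_one hpos]
        have : (0 : ℝ) ≤ n := Nat.cast_nonneg n
        linarith
      calc 1 / ((n : ℝ) + 1) * Gam n s ≤ 1 * Gam n s := mul_le_mul_of_nonneg_right h2 hG0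
        _ ≤ r / 2 := by rw [one_mul]; exact h1
    · have h1 : Gam n s ≤ 1 := Gam_le_one n s hs0.le hs1
      have h2 : 1 / ((n : ℝ) + 1) ≤ 1 / ((n0 : ℝ) + 1) := by
        apply one_div_le_one_div_of_le (by positivity)
        have : (n0 : ℝ) ≤ n := Nat.cast_le.2 h
        linarith
      have h3 : (0 : ℝ) ≤ 1 / ((n : ℝ) + 1) := by positivity
      calc 1 / ((n : ℝ) + 1) * Gam n s ≤ 1 / ((n : ℝ) + 1) * 1 := mul_le_mul_of_nonneg_left h1 h3
        _ ≤ r / 2 := by rw [mul_one]; linarith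
  linarith

end Pool.Agent.W_MP_68deb0_h42
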