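import Pool.Agent.W_MP_68deb0_h42.Defect
import Pool.Agent.W_MP_68deb0_h42.GamL

set_option autoImplicit false

namespace Pool.Agent.W_MP_68deb0_h42

open Finset

variable {n : ℕ} {ε : ℝ}

/-- The quasi-norm of a stage. -/
noncomputable def Stage.q (S : Stage n ε) (x : ℝ × (S.ι → ℝ)) : ℝ := N1 x.2 + |x.1 - S.F x.2|

theorem Stage.q_nonneg (S : Stage n ε) (x : ℝ × (S.ι → ℝ)) : 0 ≤ S.q x :=
  add_nonneg (N1_nonneg _) (abs_nonneg _)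

theorem Stage.q_smul (S : Stage n ε) (a : ℝ) (x : ℝ × (S.ι → ℝ)) :
    S.q (a • x) = |a| * S.q x := by
  unfold Stage.q
  rw [Prod.smul_snd, Prod.smul_fst, N1_smul, S.F_smul, smul_eq_mul, ← mul_sub, abs_mul]
  ring

theorem Stage.q_add (S : Stage n ε) (hε : 0 < ε) (hε1 : ε ≤ 1 / 100) (x y : ℝ × (S.ι → ℝ)) :
    S.q (x + y) ≤ 2 * (S.q x + S.q y) := by
  have hd := Lin.defect S.p_pos S.p_sum hε S.lin x.2 y.2
  have h1 := N1_add_le x.2 y.2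
  have hx := N1_nonneg x.2
  have hy := N1_nonneg y.2
  have ax := abs_nonneg (x.1 - S.F x.2)
  have ay := abs_nonneg (y.1 - S.F y.2)
  have he : 48 * ε ^ 2 ≤ 1 := by
    have : ε ^ 2 ≤ (1 / 100) ^ 2 := pow_le_pow_left₀ hε.le hε1 2
    linarith
  have h2 : 48 * ε ^ 2 * (N1 x.2 + N1 y.2) ≤ 1 * (N1 x.2 + N1 y.2) :=
    mul_le_mul_of_nonneg_right he (by linarith)
  have h3 : |(x.1 + y.1) - S.F (x.2 + y.2)| ≤ |x.1 - S.F x.2| + |y.1 - S.F y.2| +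
      |S.F (x.2 + y.2) - S.F x.2 - S.F y.2| := by
    have e : (x.1 + y.1) - S.F (x.2 + y.2) = (x.1 - S.F x.2) + (y.1 - S.F y.2) -
        (S.F (x.2 + y.2) - S.F x.2 - S.F y.2) := by ring
    rw [e]
    exact (abs_sub _ _).trans (add_le_add_left (abs_add_le _ _) _)
  show N1 (x.2 + y.2) + |(x.1 + y.1) - S.F (x.2 + y.2)| ≤
    2 * ((N1 x.2 + |x.1 - S.F x.2|) + (N1 y.2 + |y.1 - S.F y.2|))
  linarith

/-- The bijection onto the Banach space `l_1^(1+ι)`. -/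
noncomputable def Stage.g (S : Stage n ε) :
    (ℝ × (S.ι → ℝ)) ≃ PiLp 1 (fun _ : Option S.ι => ℝ) where
  toFun x := WithLp.toLp 1 (fun o => o.elim (x.1 / 2 ^ n) (S.G x.1 x.2))
  invFun y := (2 ^ n * y none, (S.G (2 ^ n * y none)).symm (fun i => y (some i)))
  left_inv x := by
    have h : (2 : ℝ) ^ n * (x.1 / 2 ^ n) = x.1 := by field_simp
    show ((2 : ℝ) ^ n * (x.1 / 2 ^ n), (S.G (2 ^ n * (x.1 / 2 ^ n))).symm
      (fun i => S.G x.1 x.2 i)) = x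
    rw [h]
    exact Prod.ext rfl ((S.G x.1).symm_apply_apply x.2)
  right_inv y := by
    ext o
    cases o with
    | none =>
      show (2 : ℝ) ^ n * y none / 2 ^ n = y none
      field_simp
    | some i =>
      show S.G (2 ^ n * y none) ((S.G (2 ^ n * y none)).symm (fun i => y (some i))) i = y (some i)
      rw [Equiv.apply_symm_apply]

theorem Stage.norm_g_sub (S : Stage n ε) (x y : ℝ × (S.ι → ℝ)) :
    ‖S.g x - S.g y‖ = N1 (S.G x.1 x.2 - S.G y.1 y.2) + |x.1 - y.1| / 2 ^ n := by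
  rw [PiLp.norm_eq_of_L1, Fintype.sum_option]
  show ‖x.1 / 2 ^ n - y.1 / 2 ^ n‖ + ∑ i, ‖S.G x.1 x.2 i - S.G y.1 y.2 i‖ = _
  rw [← sub_div, norm_div, Real.norm_eq_abs, add_comm]
  congr 1
  rw [norm_pow, Real.norm_eq_abs, abs_of_pos (by norm_num : (0 : ℝ) < 2)]

theorem Stage.g_zero (S : Stage n ε) : S.g 0 = 0 := by
  ext o
  cases o with
  | none =>
    show (0 : ℝ) / 2 ^ n = 0
    exact zero_div _
  | some i =>
    show S.G 0 0 i = 0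
    rw [S.G_zero]
    rfl

theorem Stage.norm_g_sub_le (S : Stage n ε) (hε : 0 < ε) (hε1 : ε ≤ 1 / 100)
    (x y : ℝ × (S.ι → ℝ)) :
    ‖S.g x - S.g y‖ ≤ 7 * S.q (x - y) + √(S.q (x - y)) := by
  rw [S.norm_g_sub]
  have hup := S.up x.1 y.1 x.2 y.2
  have hF := S.F_le (x.2 - y.2)
  have h2 : (1 : ℝ) ≤ 2 ^ n := one_le_pow₀ (by norm_num)
  have hN := N1_nonneg (x.2 - y.2)
  have ha := abs_nonneg (x.1 - y.1 - S.F (x.2 - y.2))
  have hq : S.q (x - y) = N1 (x.2 - y.2) + |x.1 - y.1 - S.F (x.2 - y.2)| := rfl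
  rw [hq]
  have hs := Real.sqrt_nonneg (N1 (x.2 - y.2) + |x.1 - y.1 - S.F (x.2 - y.2)|)
  have h3 : |x.1 - y.1| / 2 ^ n ≤ |x.1 - y.1 - S.F (x.2 - y.2)| + N1 (x.2 - y.2) := by
    rw [div_le_iff₀ (by positivity)]
    have h4 : |x.1 - y.1| ≤ |x.1 - y.1 - S.F (x.2 - y.2)| + |S.F (x.2 - y.2)| := by
      have := abs_add_le (x.1 - y.1 - S.F (x.2 - y.2)) (S.F (x.2 - y.2))
      rwa [sub_add_cancel] at this
    have h5 : |x.1 - y.1 - S.F (x.2 - y.2)| * 1 ≤ |x.1 - y.1 - S.F (x.2 - y.2)| * 2 ^ n :=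
      mul_le_mul_of_nonneg_left h2 ha
    linarith
  have h6 : ε * √(N1 (x.2 - y.2) + |x.1 - y.1 - S.F (x.2 - y.2)|) ≤
      1 * √(N1 (x.2 - y.2) + |x.1 - y.1 - S.F (x.2 - y.2)|) :=
    mul_le_mul_of_nonneg_right (by linarith) hs
  have _ := hε
  linarith

theorem Stage.q_sub_le (S : Stage n ε) (x y : ℝ × (S.ι → ℝ)) (h : ‖S.g x - S.g y‖ ≤ 1) :
    S.q (x - y) ≤ 6 * ‖S.g x - S.g y‖ + ε * Gam n ‖S.g x - S.g y‖ := by
  rw [S.norm_g_sub] at h ⊢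
  have hdown := S.down x.1 y.1 x.2 y.2 h
  have hq : S.q (x - y) = N1 (x.2 - y.2) + |x.1 - y.1 - S.F (x.2 - y.2)| := rfl
  rw [hq]
  have ha := abs_nonneg (x.1 - y.1 - S.F (x.2 - y.2))
  linarith

theorem Stage.q_nonconvex (S : Stage n ε) (hn : n ≠ 0) :
    ∃ (k : ℕ) (e : Fin k → ℝ × (S.ι → ℝ)), 0 < k ∧ (∀ i, S.q (e i) ≤ 1) ∧
      2 ^ (n - 1) ≤ S.q ((1 / (k : ℝ)) • ∑ i, e i) := by
  obtain ⟨k, e, hk, h1, h2, h3⟩ := S.nonconvex hn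
  refine ⟨k, fun i => (0, e i), hk, fun i => ?_, ?_⟩
  · show N1 (e i) + |0 - S.F (e i)| ≤ 1
    rw [h2 i, sub_zero, abs_zero, add_zero]
    exact h1 i
  · have e1 : ((1 / (k : ℝ)) • ∑ i, ((0 : ℝ), e i) : ℝ × (S.ι → ℝ)) =
        (0, (1 / (k : ℝ)) • ∑ i, e i) := by
      refine Prod.ext ?_ ?_
      · rw [Prod.smul_fst, Prod.fst_sum]
        simp
      · rw [Prod.smul_snd, Prod.snd_sum]
    rw [e1]
    show (2 : ℝ) ^ (n - 1) ≤ N1 ((1 / (k : ℝ)) • ∑ i, e i) + |0 - S.F ((1 / (k : ℝ)) • ∑ i, e i)|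
    have h4 := N1_nonneg ((1 / (k : ℝ)) • ∑ i, e i)
    have h5 := neg_abs_le (0 - S.F ((1 / (k : ℝ)) • ∑ i, e i))
    linarith

end Pool.Agent.W_MP_68deb0_h42
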