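import Pool.Agent.W_MP_68deb0_h42.Abs

set_option autoImplicit false
open Topology

namespace Pool.Agent.W_MP_68deb0_h42

section sumF

variable (V : ℕ → Type) [∀ n, AddCommGroup (V n)] [∀ n, Module ℝ (V n)]
  (q : ∀ n, V n → ℝ)

/-- A quasi-norm vanishes at zero. -/
lemma sumF_q_zero (q_smul : ∀ n (a : ℝ) x, q n (a • x) = |a| * q n x) (n : ℕ) : q n 0 = 0 := by
  have h := q_smul n 0 0
  rw [zero_smul, abs_zero, zero_mul] at h
  exact h

/-- The space of the bounded sequences. -/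
def sumE (q_smul : ∀ n (a : ℝ) x, q n (a • x) = |a| * q n x)
    (q_add : ∀ n x y, q n (x + y) ≤ 2 * (q n x + q n y)) : Submodule ℝ (∀ n, V n) where
  carrier := {x | ∃ C : ℝ, ∀ n, q n (x n) ≤ C}
  zero_mem' := ⟨0, fun n => (sumF_q_zero V q q_smul n).le⟩
  add_mem' := by
    rintro x y ⟨C, hC⟩ ⟨D, hD⟩
    refine ⟨2 * (C + D), fun n => ?_⟩
    have h := q_add n (x n) (y n)
    have h1 := hC n
    have h2 := hD n
    have h3 : q n ((x + y) n) = q n (x n + y n) := rfl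
    rw [h3]
    linarith
  smul_mem' := by
    rintro a x ⟨C, hC⟩
    refine ⟨|a| * C, fun n => ?_⟩
    have h3 : q n ((a • x) n) = q n (a • x n) := rfl
    rw [h3, q_smul]
    exact mul_le_mul_of_nonneg_left (hC n) (abs_nonneg a)

/-- Bounds for the inverse maps which do not depend on the index. -/
lemma sumF_bound (q_smul : ∀ n (a : ℝ) x, q n (a • x) = |a| * q n x)
    (q_add : ∀ n x y, q n (x + y) ≤ 2 * (q n x + q n y))
    (Y : ℕ → Type) [∀ n, NormedAddCommGroup (Y n)] [∀ n, NormedSpace ℝ (Y n)]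
    (g : ∀ n, V n ≃ Y n) (g_zero : ∀ n, g n 0 = 0) {s : ℝ}
    (hs : ∀ n x y, ‖g n x - g n y‖ ≤ s → q n (x - y) ≤ 1) (N : ℕ) :
    ∃ B : ℝ, ∀ n (w : Y n), ‖w‖ ≤ N * s → q n ((g n).symm w) ≤ B := by
  induction N with
  | zero =>
    refine ⟨0, fun n w hw => ?_⟩
    have h1 : w = 0 := by
      rw [Nat.cast_zero, zero_mul] at hw
      exact norm_le_zero_iff.1 hw
    have h2 : (g n).symm w = 0 := by
      rw [h1, ← g_zero n, Equiv.symm_apply_apply]
    rw [h2, sumF_q_zero V q q_smul n]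
  | succ N ih =>
    obtain ⟨B, hB⟩ := ih
    refine ⟨2 * (1 + B), fun n w hw => ?_⟩
    have hN : (0 : ℝ) < (N : ℝ) + 1 := by positivity
    have hw' : ‖w‖ ≤ ((N : ℝ) + 1) * s := by
      have h := hw
      push_cast at h
      exact h
    set w' : Y n := ((N : ℝ) / ((N : ℝ) + 1)) • w with hw'def
    have h1 : ‖w'‖ ≤ N * s := by
      rw [hw'def, norm_smul, Real.norm_of_nonneg (by positivity)]
      calc (N : ℝ) / ((N : ℝ) + 1) * ‖w‖ ≤ (N : ℝ) / ((N : ℝ) + 1) * (((N : ℝ) + 1) * s) :=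
            mul_le_mul_of_nonneg_left hw' (by positivity)
        _ = N * s := by field_simp
    have h2 : ‖w - w'‖ ≤ s := by
      have h3 : w - w' = (1 / ((N : ℝ) + 1)) • w := by
        have h4 : (1 : ℝ) - (N : ℝ) / ((N : ℝ) + 1) = 1 / ((N : ℝ) + 1) := by
          field_simp
          ring
        rw [hw'def, ← h4, sub_smul, one_smul]
      rw [h3, norm_smul, Real.norm_of_nonneg (by positivity)]
      calc 1 / ((N : ℝ) + 1) * ‖w‖ ≤ 1 / ((N : ℝ) + 1) * (((N : ℝ) + 1) * s) :=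
            mul_le_mul_of_nonneg_left hw' (by positivity)
        _ = s := by field_simp
    have h5 : q n ((g n).symm w - (g n).symm w') ≤ 1 := by
      apply hs
      rw [Equiv.apply_symm_apply, Equiv.apply_symm_apply]
      exact h2
    have h6 := hB n w' h1
    have h7 := q_add n ((g n).symm w - (g n).symm w') ((g n).symm w')
    rw [sub_add_cancel] at h7
    linarith

end sumF

/-- The `l_∞` sum of a sequence of quasi-normed spaces. -/
theorem goal_of_sum (V : ℕ → Type) [∀ n, AddCommGroup (V n)] [∀ n, Module ℝ (V n)]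
    (q : ∀ n, V n → ℝ) (q_nonneg : ∀ n x, 0 ≤ q n x)
    (q_smul : ∀ n (a : ℝ) x, q n (a • x) = |a| * q n x)
    (q_add : ∀ n x y, q n (x + y) ≤ 2 * (q n x + q n y))
    (Y : ℕ → Type) [∀ n, NormedAddCommGroup (Y n)] [∀ n, NormedSpace ℝ (Y n)]
    [∀ n, CompleteSpace (Y n)] (g : ∀ n, V n ≃ Y n) (g_zero : ∀ n, g n 0 = 0)
    (hA : ∀ n x y, ‖g n x - g n y‖ ≤ 7 * q n (x - y) + √(q n (x - y)))
    (hB : ∀ r : ℝ, 0 < r → ∃ s : ℝ, 0 < s ∧ ∀ n x y, ‖g n x - g n y‖ ≤ s → q n (x - y) ≤ r)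
    (hN : ∀ C : ℝ, ∃ (n k : ℕ) (e : Fin k → V n), 0 < k ∧ (∀ i, q n (e i) ≤ 1) ∧
      C ≤ q n ((1 / (k : ℝ)) • ∑ i, e i)) : Goal := by
  have hq0 := sumF_q_zero V q q_smul
  let E := sumE V q q_smul q_add
  have hbdd : ∀ x : E, BddAbove (Set.range fun n => q n (x.1 n)) := by
    rintro ⟨x, C, hC⟩
    refine ⟨C, ?_⟩
    rintro _ ⟨n, rfl⟩
    exact hC n
  let Q : E → ℝ := fun x => ⨆ n, q n (x.1 n)
  have hle : ∀ (x : E) n, q n (x.1 n) ≤ Q x := fun x n => le_ciSup (hbdd x) n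
  have hQle : ∀ (x : E) (C : ℝ), (∀ n, q n (x.1 n) ≤ C) → Q x ≤ C := fun x C h => ciSup_le h
  have hmono : ∀ n x y (C : ℝ), q n (x - y) ≤ C → ‖g n x - g n y‖ ≤ 7 * C + √C := by
    intro n x y C h
    have h1 := hA n x y
    have h2 := Real.sqrt_le_sqrt h
    linarith
  have hmem : ∀ x : E, Memℓp (fun n => g n (x.1 n)) ⊤ := by
    intro x
    refine memℓp_infty ⟨7 * Q x + √(Q x), ?_⟩
    rintro _ ⟨n, rfl⟩
    have h := hmono n (x.1 n) 0 (Q x) (by rw [sub_zero]; exact hle x n)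
    rw [g_zero, sub_zero] at h
    exact h
  let Φ0 : E → lp Y ⊤ := fun x => ⟨fun n => g n (x.1 n), hmem x⟩
  have hΦ0 : ∀ (x : E) n, Φ0 x n = g n (x.1 n) := fun x n => rfl
  have hinj : Function.Injective Φ0 := by
    intro x y hxy
    apply Subtype.ext
    funext n
    apply (g n).injective
    rw [← hΦ0, ← hΦ0, hxy]
  have hsurj : Function.Surjective Φ0 := by
    intro y
    obtain ⟨s, hs, hs1⟩ := hB 1 one_pos
    obtain ⟨N, hN1⟩ := exists_nat_ge (‖y‖ / s)
    obtain ⟨B, hB1⟩ := sumF_bound V q q_smul q_add Y g g_zero hs1 N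
    refine ⟨⟨fun n => (g n).symm (y n), B, fun n => hB1 n (y n) ?_⟩, ?_⟩
    · refine (lp.norm_apply_le_norm ENNReal.top_ne_zero y n).trans ?_
      rw [div_le_iff₀ hs] at hN1
      exact hN1
    · apply Subtype.ext
      funext n
      exact (g n).apply_symm_apply (y n)
  let Φ : E ≃ lp Y ⊤ := Equiv.ofBijective Φ0 ⟨hinj, hsurj⟩
  have hΦ : ∀ x : E, Φ x = Φ0 x := fun x => rfl
  have hsub : ∀ (x y : E) n, (Φ x - Φ y) n = g n (x.1 n) - g n (y.1 n) := fun x y n => rfl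
  have hsub' : ∀ (x y : E) n, (x - y).1 n = x.1 n - y.1 n := fun x y n => rfl
  refine goal_of_data E Q ?_ ?_ ?_ (lp Y ⊤) Φ ?_ ?_ ?_
  · exact fun x => Real.iSup_nonneg fun n => q_nonneg n _
  · intro a x
    show (⨆ n, q n ((a • x).1 n)) = |a| * ⨆ n, q n (x.1 n)
    rw [Real.mul_iSup_of_nonneg (abs_nonneg a)]
    exact iSup_congr fun n => q_smul n a (x.1 n)
  · intro x y
    refine hQle _ _ fun n => ?_
    have h1 := q_add n (x.1 n) (y.1 n)
    have h2 := hle x n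
    have h3 := hle y n
    have h4 : q n ((x + y).1 n) = q n (x.1 n + y.1 n) := rfl
    rw [h4]
    linarith
  · intro r hr
    refine ⟨min (r / 28) ((r / 4) ^ 2), lt_min (by positivity) (by positivity), fun x y hxy => ?_⟩
    have h1 : Q (x - y) ≤ r / 28 := hxy.trans (min_le_left _ _)
    have h2 : Q (x - y) ≤ (r / 4) ^ 2 := hxy.trans (min_le_right _ _)
    have h3 : √(Q (x - y)) ≤ r / 4 := by
      refine (Real.sqrt_le_sqrt h2).trans ?_
      rw [Real.sqrt_sq (by positivity)]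
    have h4 : ‖Φ x - Φ y‖ ≤ 7 * Q (x - y) + √(Q (x - y)) := by
      have h0 : 0 ≤ Q (x - y) := Real.iSup_nonneg fun n => q_nonneg n _
      refine lp.norm_le_of_forall_le (by positivity) fun n => ?_
      rw [hsub]
      refine hmono n _ _ _ ?_
      rw [← hsub']
      exact hle _ n
    linarith
  · intro r hr
    obtain ⟨s, hs, hs1⟩ := hB r hr
    refine ⟨s, hs, fun x y hxy => hQle _ _ fun n => ?_⟩
    rw [hsub']
    apply hs1
    rw [← hsub]
    exact (lp.norm_apply_le_norm ENNReal.top_ne_zero (Φ x - Φ y) n).trans hxy.le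
  · intro C
    obtain ⟨n, k, e, hk, he, hC⟩ := hN C
    have hsingle : ∀ (v : V n) m, q m ((Pi.single n v : ∀ m, V m) m) ≤ q n v := by
      intro v m
      by_cases hm : m = n
      · subst hm
        rw [Pi.single_eq_same]
      · rw [Pi.single_eq_of_ne hm, hq0]
        exact q_nonneg n v
    let e' : Fin k → E := fun i => ⟨Pi.single n (e i), q n (e i), hsingle (e i)⟩
    refine ⟨k, e', hk, fun i => hQle _ _ fun m => (hsingle (e i) m).trans (he i), hC.trans ?_⟩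
    refine le_trans (le_of_eq ?_) (hle _ n)
    congr 1
    have h1 : (((1 / (k : ℝ)) • ∑ i, e' i : E)).1 n = (1 / (k : ℝ)) • ((∑ i, e' i : E).1 n) := rfl
    rw [h1]
    congr 1
    have h2 : ((∑ i, e' i : E).1) = ∑ i, (e' i).1 := Submodule.coe_sum _ _ _
    rw [h2, Finset.sum_apply]
    refine Finset.sum_congr rfl fun i _ => ?_
    show e i = (Pi.single n (e i) : ∀ m, V m) n
    rw [Pi.single_eq_same]

end Pool.Agent.W_MP_68deb0_h42
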