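import Pool.Agent.W_MP_68deb0_h42.Stages
import Pool.Agent.W_MP_68deb0_h42.StageQ
import Pool.Agent.W_MP_68deb0_h42.SumF

set_option autoImplicit false

namespace Pool.Agent.W_MP_68deb0_h42

/-- The parameter of the stage number `n`. -/
noncomputable def en (n : ℕ) : ℝ := 1 / 100 * (1 / ((n : ℝ) + 1))

lemma en_pos (n : ℕ) : 0 < en n := by unfold en; positivity

lemma en_le (n : ℕ) : en n ≤ 1 / 100 := by
  unfold en
  have : (1 : ℝ) / ((n : ℝ) + 1) ≤ 1 := by
    rw [div_le_one (by positivity)]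
    have : (0 : ℝ) ≤ n := Nat.cast_nonneg n
    linarith
  linarith

lemma en_le' (n : ℕ) : en n ≤ 1 / ((n : ℝ) + 1) := by
  unfold en
  have : (0 : ℝ) < 1 / ((n : ℝ) + 1) := by positivity
  linarith

/-- The chosen stages. -/
noncomputable def St (n : ℕ) : Stage n (en n) := (exists_stage n (en n) (en_pos n)).some

theorem goal : Goal := by
  refine goal_of_sum (fun n => ℝ × ((St n).ι → ℝ)) (fun n => (St n).q)
    (fun n x => (St n).q_nonneg x) (fun n a x => (St n).q_smul a x)
    (fun n x y => (St n).q_add (en_pos n) (en_le n) x y)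
    (fun n => PiLp 1 (fun _ : Option (St n).ι => ℝ)) (fun n => (St n).g)
    (fun n => (St n).g_zero) (fun n x y => (St n).norm_g_sub_le (en_pos n) (en_le n) x y) ?_ ?_
  · intro r hr
    obtain ⟨s, hs, hs1, h⟩ := Gam_unif r hr
    refine ⟨s, hs, fun n x y hxy => ?_⟩
    have h1 := (St n).q_sub_le x y (hxy.trans hs1)
    have h2 := Gam_mono n _ _ (norm_nonneg ((St n).g x - (St n).g y)) hxy
    have h3 := Gam_nonneg n _ (norm_nonneg ((St n).g x - (St n).g y))
    have h4 := Gam_nonneg n s hs.le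
    have h5 : en n * Gam n ‖(St n).g x - (St n).g y‖ ≤ 1 / ((n : ℝ) + 1) * Gam n s :=
      mul_le_mul (en_le' n) h2 h3 (by positivity)
    calc (St n).q (x - y) ≤ 6 * ‖(St n).g x - (St n).g y‖ +
          en n * Gam n ‖(St n).g x - (St n).g y‖ := h1
      _ ≤ 6 * s + 1 / ((n : ℝ) + 1) * Gam n s := by linarith
      _ ≤ r := h n
  · intro C
    obtain ⟨n, hn⟩ := pow_unbounded_of_one_lt C (one_lt_two : (1 : ℝ) < 2)
    obtain ⟨k, e, hk, he, hav⟩ := (St (n + 1)).q_nonconvex (Nat.succ_ne_zero n)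
    refine ⟨n + 1, k, e, hk, he, ?_⟩
    have : n + 1 - 1 = n := by omega
    rw [this] at hav
    exact hn.le.trans hav

end Pool.Agent.W_MP_68deb0_h42
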