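import Pool.Agent.W_MP_68deb0_h42.Basic

set_option autoImplicit false
open Topology

namespace Pool.Agent.W_MP_68deb0_h42

/-- The statement of the problem. -/
def Goal : Prop :=
    ∃ (E : Type) (_ : AddCommGroup E) (_ : Module ℝ E) (_ : UniformSpace E)
      (_ : IsUniformAddGroup E) (_ : ContinuousSMul ℝ E) (_ : T2Space E)
      (_ : FirstCountableTopology E) (_ : CompleteSpace E),
      (∃ U ∈ 𝓝 (0 : E), Bornology.IsVonNBounded ℝ U) ∧
      ¬ LocallyConvexSpace ℝ E ∧
      ∃ (F : Type) (_ : NormedAddCommGroup F) (_ : NormedSpace ℝ F) (_ : CompleteSpace F),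
        Nonempty (UniformEquiv E F)

/-- A quasi-norm and a bijection onto a Banach space which is uniformly continuous in both
directions: transport the uniform structure of the Banach space. -/
theorem goal_of_data (E : Type) [AddCommGroup E] [Module ℝ E] (Q : E → ℝ)
    (Q_nonneg : ∀ x, 0 ≤ Q x) (Q_smul : ∀ (a : ℝ) x, Q (a • x) = |a| * Q x)
    (Q_add : ∀ x y, Q (x + y) ≤ 2 * (Q x + Q y))
    (F : Type) [NormedAddCommGroup F] [NormedSpace ℝ F] [CompleteSpace F] (Φ : E ≃ F)
    (hA : ∀ r : ℝ, 0 < r → ∃ s : ℝ, 0 < s ∧ ∀ x y, Q (x - y) ≤ s → ‖Φ x - Φ y‖ < r)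
    (hB : ∀ r : ℝ, 0 < r → ∃ s : ℝ, 0 < s ∧ ∀ x y, ‖Φ x - Φ y‖ < s → Q (x - y) ≤ r)
    (hN : ∀ C : ℝ, ∃ (k : ℕ) (e : Fin k → E), 0 < k ∧ (∀ i, Q (e i) ≤ 1) ∧
      C ≤ Q ((1 / (k : ℝ)) • ∑ i, e i)) : Goal := by
  let u : UniformSpace E := UniformSpace.comap Φ inferInstance
  have hneg : ∀ x, Q (-x) = Q x := by
    intro x
    have := Q_smul (-1) x
    simpa using this
  have hui : IsUniformInducing (Φ : E → F) := ⟨rfl⟩
  -- the basis of the uniformity
  have hbas : (uniformity E).HasBasis (fun s : ℝ => 0 < s) (fun s => {p : E × E | Q (p.1 - p.2) ≤ s}) := by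
    have h1 : (uniformity E).HasBasis (fun s : ℝ => 0 < s)
        (fun s => {p : E × E | ‖Φ p.1 - Φ p.2‖ < s}) := by
      have := hui.basis_uniformity (Metric.uniformity_basis_dist (α := F))
      refine this.congr (fun _ => Iff.rfl) ?_
      intro s _
      ext p
      simp [dist_eq_norm]
    refine h1.to_hasBasis ?_ ?_
    · intro r hr
      obtain ⟨s, hs, h⟩ := hA r hr
      exact ⟨s, hs, fun p hp => h p.1 p.2 hp⟩
    · intro r hr
      obtain ⟨s, hs, h⟩ := hB r hr
      exact ⟨s, hs, fun p hp => h p.1 p.2 hp⟩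
  have hnhd : ∀ x0 : E, (𝓝 x0).HasBasis (fun s : ℝ => 0 < s) (fun s => {x : E | Q (x - x0) ≤ s}) := by
    intro x0
    have := nhds_basis_uniformity hbas (x := x0)
    simpa using this
  have hinj : Function.Injective (Φ : E → F) := Φ.injective
  have hug : IsUniformAddGroup E := by
    refine ⟨?_⟩
    rw [UniformContinuous, hbas.tendsto_right_iff]
    intro r hr
    have hr4 : 0 < r / 4 := by positivity
    have h1 := hbas.mem_of_mem hr4
    have h2 : ∀ᶠ p : (E × E) × (E × E) in uniformity (E × E),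
        Q (p.1.1 - p.2.1) ≤ r / 4 ∧ Q (p.1.2 - p.2.2) ≤ r / 4 := by
      rw [uniformity_prod]
      refine Filter.inter_mem_inf ?_ ?_
      · exact Filter.preimage_mem_comap h1
      · exact Filter.preimage_mem_comap h1
    filter_upwards [h2] with p hp
    have h3 : p.1.1 - p.1.2 - (p.2.1 - p.2.2) = (p.1.1 - p.2.1) + -(p.1.2 - p.2.2) := by abel
    rw [h3]
    refine (Q_add _ _).trans ?_
    rw [hneg]
    linarith [hp.1, hp.2]
  have hcs : ContinuousSMul ℝ E := by
    refine ⟨?_⟩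
    rw [continuous_iff_continuousAt]
    rintro ⟨a0, x0⟩
    unfold ContinuousAt
    rw [(hnhd _).tendsto_right_iff]
    intro r hr
    -- need |a-a0| small and Q(x - x0) small
    have hM : 0 < |a0| + 1 := by positivity
    set δ := min 1 (r / (2 * (2 * Q x0 + 1))) with hδ
    have hδ0 : 0 < δ := by
      refine lt_min one_pos ?_
      have := Q_nonneg x0
      positivity
    set η := r / (4 * (|a0| + 1)) with hη
    have hη0 : 0 < η := by positivity
    have e1 : ∀ᶠ p : ℝ × E in 𝓝 (a0, x0), |p.1 - a0| ≤ δ := by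
      have : ∀ᶠ a : ℝ in 𝓝 a0, |a - a0| ≤ δ := by
        have := Metric.closedBall_mem_nhds a0 hδ0
        filter_upwards [this] with a ha
        simpa [Real.dist_eq] using ha
      exact (continuous_fst.tendsto (a0, x0)).eventually this
    have e2 : ∀ᶠ p : ℝ × E in 𝓝 (a0, x0), Q (p.2 - x0) ≤ η := by
      exact (continuous_snd.tendsto (a0, x0)).eventually ((hnhd x0).mem_of_mem hη0)
    filter_upwards [e1, e2] with p h1 h2
    have h3 : p.1 • p.2 - a0 • x0 = p.1 • (p.2 - x0) + (p.1 - a0) • x0 := by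
      rw [smul_sub, sub_smul]; abel
    rw [h3]
    refine (Q_add _ _).trans ?_
    rw [Q_smul, Q_smul]
    have h4 : |p.1| ≤ |a0| + 1 := by
      have : |p.1| ≤ |p.1 - a0| + |a0| := by
        have := abs_add_le (p.1 - a0) a0
        simpa using this
      have h5 : δ ≤ 1 := min_le_left _ _
      linarith
    have h6 : |p.1| * Q (p.2 - x0) ≤ (|a0| + 1) * η :=
      mul_le_mul h4 h2 (Q_nonneg _) hM.le
    have h7 : (|a0| + 1) * η = r / 4 := by
      rw [hη]; field_simp
    have h8 : |p.1 - a0| * Q x0 ≤ r / (2 * (2 * Q x0 + 1)) * Q x0 := by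
      refine mul_le_mul_of_nonneg_right ?_ (Q_nonneg _)
      exact h1.trans (min_le_right _ _)
    have h9 : r / (2 * (2 * Q x0 + 1)) * Q x0 ≤ r / 4 := by
      have hq := Q_nonneg x0
      rw [div_mul_eq_mul_div, div_le_div_iff₀ (by positivity) (by norm_num)]
      nlinarith
    linarith
  have ht2 : T2Space E := by
    have hemb : IsEmbedding (Φ : E → F) := ⟨hui.isInducing, hinj⟩
    exact hemb.t2Space
  have hfc : FirstCountableTopology E := hui.isInducing.firstCountableTopology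
  have hue : Nonempty (UniformEquiv E F) := by
    refine ⟨⟨Φ, hui.uniformContinuous, ?_⟩⟩
    rw [hui.uniformContinuous_iff]
    have : (Φ : E → F) ∘ Φ.invFun = id := by
      funext y
      exact Φ.apply_symm_apply y
    rw [this]
    exact uniformContinuous_id
  have hcomp : CompleteSpace E := by
    obtain ⟨e⟩ := hue
    exact e.completeSpace_iff.2 inferInstance
  have hnhd0 : (𝓝 (0 : E)).HasBasis (fun s : ℝ => 0 < s) (fun s => {x : E | Q x ≤ s}) := by
    have := hnhd 0
    simpa using this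
  refine ⟨E, inferInstance, inferInstance, u, hug, hcs, ht2, hfc, hcomp, ?_, ?_, F, inferInstance,
    inferInstance, inferInstance, hue⟩
  · refine ⟨{x : E | Q x ≤ 1}, hnhd0.mem_of_mem one_pos, ?_⟩
    intro V hV
    obtain ⟨t, ht, htV⟩ := hnhd0.mem_iff.1 hV
    rw [absorbs_iff_norm]
    refine ⟨1 / t, ?_⟩
    intro a ha x hx
    have hx1 : Q x ≤ 1 := hx
    have ha0 : 0 < |a| := lt_of_lt_of_le (by positivity) ha
    have ha1 : a ≠ 0 := abs_pos.1 ha0
    have ha2 : 1 / t ≤ |a| := ha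
    rw [Set.mem_smul_set_iff_inv_smul_mem₀ ha1]
    refine htV ?_
    change Q (a⁻¹ • x) ≤ t
    rw [Q_smul, abs_inv]
    have h1 : 1 ≤ t * |a| := by
      rw [div_le_iff₀ ht] at ha2
      linarith
    rw [inv_mul_le_iff₀ ha0]
    linarith
  · intro hlc
    have h1 : {x : E | Q x ≤ 1} ∈ 𝓝 (0 : E) := hnhd0.mem_of_mem one_pos
    obtain ⟨W, ⟨hW, hWc⟩, hW1⟩ := (LocallyConvexSpace.convex_basis_zero ℝ E).mem_iff.1 h1
    obtain ⟨s, hs, hsW⟩ := hnhd0.mem_iff.1 hW
    obtain ⟨k, e, hk, he, hC⟩ := hN (2 / s)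
    have hk' : (0 : ℝ) < k := by exact_mod_cast hk
    have h2 : ∀ i, s • e i ∈ W := by
      intro i
      refine hsW ?_
      change Q (s • e i) ≤ s
      rw [Q_smul, abs_of_pos hs]
      nlinarith [he i]
    have h3 : ∑ i : Fin k, (1 / (k : ℝ)) • (s • e i) ∈ W := by
      refine hWc.sum_mem (fun _ _ => by positivity) ?_ (fun i _ => h2 i)
      simp [hk'.ne']
    have h4 := hW1 h3
    have h5 : Q (∑ i : Fin k, (1 / (k : ℝ)) • (s • e i)) ≤ 1 := h4
    have h6 : ∑ i : Fin k, (1 / (k : ℝ)) • (s • e i) = s • ((1 / (k : ℝ)) • ∑ i, e i) := by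
      rw [Finset.smul_sum, Finset.smul_sum]
      refine Finset.sum_congr rfl fun i _ => ?_
      rw [smul_comm]
    rw [h6, Q_smul, abs_of_pos hs] at h5
    have h7 : s * (2 / s) ≤ s * Q ((1 / (k : ℝ)) • ∑ i, e i) := mul_le_mul_of_nonneg_left hC hs.le
    have h8 : s * (2 / s) = 2 := by field_simp
    linarith

end Pool.Agent.W_MP_68deb0_h42
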