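import Pool.Agent.W_MP_68deb0_h42.Defs

set_option autoImplicit false

namespace Pool.Agent.W_MP_68deb0_h42

open Finset

variable {ι κ : Type} [Fintype ι] [Fintype κ]

lemma N1_nonneg (v : ι → ℝ) : 0 ≤ N1 v := Finset.sum_nonneg fun _ _ => abs_nonneg _

@[simp] lemma N1_zero : N1 (0 : ι → ℝ) = 0 := by simp [N1]

lemma N1_add_le (u v : ι → ℝ) : N1 (u + v) ≤ N1 u + N1 v := by
  unfold N1
  rw [← Finset.sum_add_distrib]
  exact Finset.sum_le_sum fun i _ => abs_add_le _ _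

lemma N1_neg (v : ι → ℝ) : N1 (-v) = N1 v := by simp [N1]

lemma N1_sub_le (u v : ι → ℝ) : N1 (u - v) ≤ N1 u + N1 v := by
  rw [sub_eq_add_neg]; exact (N1_add_le _ _).trans (by rw [N1_neg])

lemma N1_smul (a : ℝ) (v : ι → ℝ) : N1 (a • v) = |a| * N1 v := by
  simp [N1, abs_mul, Finset.mul_sum]

lemma N1_sub_comm (u v : ι → ℝ) : N1 (u - v) = N1 (v - u) := by
  rw [← N1_neg, neg_sub]

lemma N1_eq_zero {v : ι → ℝ} (h : N1 v = 0) : v = 0 := by
  funext i
  have := (Finset.sum_eq_zero_iff_of_nonneg (fun i _ => abs_nonneg (v i))).1 h i (Finset.mem_univ i)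
  simpa using this

lemma abs_le_N1 (v : ι → ℝ) (i : ι) : |v i| ≤ N1 v :=
  Finset.single_le_sum (f := fun i => |v i|) (fun i _ => abs_nonneg _) (Finset.mem_univ i)

lemma N1_sum (v : ι ⊕ κ → ℝ) : N1 v = N1 (v ∘ Sum.inl) + N1 (v ∘ Sum.inr) := by
  simp [N1, Fintype.sum_sum_type]

lemma N1_elim (u : ι → ℝ) (v : κ → ℝ) : N1 (Sum.elim u v) = N1 u + N1 v := by
  simp [N1, Fintype.sum_sum_type]

lemma dot_add (a u v : ι → ℝ) : dot a (u + v) = dot a u + dot a v := by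
  simp [dot, mul_add, Finset.sum_add_distrib]

lemma dot_sub (a u v : ι → ℝ) : dot a (u - v) = dot a u - dot a v := by
  simp [dot, mul_sub, Finset.sum_sub_distrib]

lemma dot_smul (a : ι → ℝ) (c : ℝ) (v : ι → ℝ) : dot a (c • v) = c * dot a v := by
  simp only [dot, Pi.smul_apply, smul_eq_mul, Finset.mul_sum]
  exact Finset.sum_congr rfl fun i _ => by ring

@[simp] lemma dot_zero (a : ι → ℝ) : dot a 0 = 0 := by simp [dot]

lemma dot_sum (a : ι ⊕ κ → ℝ) (v : ι ⊕ κ → ℝ) :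
    dot a v = dot (a ∘ Sum.inl) (v ∘ Sum.inl) + dot (a ∘ Sum.inr) (v ∘ Sum.inr) := by
  simp [dot, Fintype.sum_sum_type]

lemma smul_dot (a : ι → ℝ) (c : ℝ) (v : ι → ℝ) : dot (c • a) v = c * dot a v := by
  simp only [dot, Pi.smul_apply, smul_eq_mul, Finset.mul_sum]
  exact Finset.sum_congr rfl fun i _ => by ring

end Pool.Agent.W_MP_68deb0_h42
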