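
import Pool.Agent.W_MP_68deb0_h42.Basic

set_option autoImplicit false

namespace Pool.Agent.W_MP_68deb0_h42

open Finset

/-- the sum over all functions to `Bool` of a product -/
theorem bern_sum {A : Type} [Fintype A] [DecidableEq A] (h : A → Bool → ℝ) :
    ∑ ξ : A → Bool, ∏ a, h a (ξ a) = ∏ a, ∑ b, h a b := by
  rw [Finset.prod_univ_sum, Fintype.piFinset_univ]

/-- the weight of one coordinate -/
noncomputable def bernW (r : ℝ) (b : Bool) : ℝ := if b then r else 1 - r

/-- the indicator of `true` -/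
noncomputable def bernI (b : Bool) : ℝ := if b then 1 else 0

/-- A finite probability space with (pairwise) independent Bernoulli variables. -/
theorem exists_bern {A : Type} [Fintype A] (ρ : A → ℝ) (hρ : ∀ a, 0 < ρ a ∧ ρ a < 1) :
    ∃ (Ξ : Type) (_ : Fintype Ξ) (π : Ξ → ℝ) (X : Ξ → A → ℝ), (∀ ξ, 0 < π ξ) ∧
      ∑ ξ, π ξ = 1 ∧ (∀ ξ a, X ξ a = 0 ∨ X ξ a = 1) ∧ (∀ a, ∑ ξ, π ξ * X ξ a = ρ a) ∧
      (∀ a b, a ≠ b → ∑ ξ, π ξ * (X ξ a * X ξ b) = ρ a * ρ b) := by
  classical
  refine ⟨A → Bool, inferInstance, fun ξ => ∏ a, bernW (ρ a) (ξ a), fun ξ a => bernI (ξ a),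
    ?_, ?_, ?_, ?_, ?_⟩
  · intro ξ
    refine Finset.prod_pos fun a _ => ?_
    unfold bernW
    split
    · exact (hρ a).1
    · linarith [(hρ a).2]
  · show ∑ ξ : A → Bool, ∏ a, bernW (ρ a) (ξ a) = 1
    rw [bern_sum (fun a b => bernW (ρ a) b)]
    refine Finset.prod_eq_one fun a _ => ?_
    simp [bernW]
  · intro ξ a
    show bernI (ξ a) = 0 ∨ bernI (ξ a) = 1
    unfold bernI
    split
    · exact Or.inr rfl
    · exact Or.inl rfl
  · intro a₀
    have h1 : ∀ ξ : A → Bool, (∏ a, bernW (ρ a) (ξ a)) * bernI (ξ a₀) =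
        ∏ a, (bernW (ρ a) (ξ a) * (if a = a₀ then bernI (ξ a) else 1)) := by
      intro ξ
      rw [Finset.prod_mul_distrib, Finset.prod_ite_eq']
      simp
    show ∑ ξ : A → Bool, (∏ a, bernW (ρ a) (ξ a)) * bernI (ξ a₀) = ρ a₀
    simp only [h1]
    rw [bern_sum (fun a b => bernW (ρ a) b * (if a = a₀ then bernI b else 1))]
    have h2 : ∀ a, ∑ b, bernW (ρ a) b * (if a = a₀ then bernI b else 1) =
        if a = a₀ then ρ a else 1 := by
      intro a
      by_cases h : a = a₀ <;> simp [h, bernW, bernI]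
    simp only [h2]
    rw [Finset.prod_ite_eq']
    simp
  · intro a₀ a₁ hne
    have h1 : ∀ ξ : A → Bool, (∏ a, bernW (ρ a) (ξ a)) * (bernI (ξ a₀) * bernI (ξ a₁)) =
        ∏ a, (bernW (ρ a) (ξ a) * ((if a = a₀ then bernI (ξ a) else 1) *
          (if a = a₁ then bernI (ξ a) else 1))) := by
      intro ξ
      rw [Finset.prod_mul_distrib, Finset.prod_mul_distrib, Finset.prod_ite_eq',
        Finset.prod_ite_eq']
      simp
    show ∑ ξ : A → Bool, (∏ a, bernW (ρ a) (ξ a)) * (bernI (ξ a₀) * bernI (ξ a₁)) = ρ a₀ * ρ a₁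
    simp only [h1]
    rw [bern_sum (fun a b => bernW (ρ a) b * ((if a = a₀ then bernI b else 1) *
      (if a = a₁ then bernI b else 1)))]
    have h2 : ∀ a, ∑ b, bernW (ρ a) b * ((if a = a₀ then bernI b else 1) *
        (if a = a₁ then bernI b else 1)) =
        (if a = a₀ then ρ a else 1) * (if a = a₁ then ρ a else 1) := by
      intro a
      by_cases h : a = a₀
      · have h' : a ≠ a₁ := by
          rw [h]
          exact hne
        have h'' : a₀ ≠ a₁ := hne
        simp [h, h'', bernW, bernI]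
      · by_cases h' : a = a₁
        · have h3 : a₁ ≠ a₀ := fun e => hne e.symm
          simp [h', h3, bernW, bernI]
        · simp [h, h', bernW]
    simp only [h2]
    rw [Finset.prod_mul_distrib, Finset.prod_ite_eq', Finset.prod_ite_eq']
    simp

end Pool.Agent.W_MP_68deb0_h42
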