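import Pool.Agent.W_MP_68deb0_h42.Basic

set_option autoImplicit false

namespace Pool.Agent.W_MP_68deb0_h42

open Finset

/-- A function which has a random linearization is almost additive. -/
theorem Lin.defect {ι Ω : Type} [Fintype ι] [Fintype Ω] {p : Ω → ℝ} {F : (ι → ℝ) → ℝ}
    {lam : Ω → ι → ℝ} {ε : ℝ} (hp : ∀ ω, 0 < p ω) (h1 : ∑ ω, p ω = 1) (hε : 0 < ε)
    (h : Lin p F lam ε) (u v : ι → ℝ) :
    |F (u + v) - F u - F v| ≤ 48 * ε ^ 2 * (N1 u + N1 v) := by
  have hu0 : 0 ≤ N1 u := N1_nonneg u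
  have hv0 : 0 ≤ N1 v := N1_nonneg v
  have hne : (Finset.univ : Finset Ω).Nonempty := by
    by_contra hc
    rw [Finset.not_nonempty_iff_eq_empty] at hc
    rw [hc, Finset.sum_empty] at h1
    exact zero_ne_one h1
  have e1 : √(N1 u) ≤ √(N1 u + N1 v) := Real.sqrt_le_sqrt (by linarith)
  have e2 : √(N1 v) ≤ √(N1 u + N1 v) := Real.sqrt_le_sqrt (by linarith)
  have e3 : √(N1 (u + v)) ≤ √(N1 u + N1 v) := Real.sqrt_le_sqrt (N1_add_le u v)
  have k1 := (h u).trans (mul_le_mul_of_nonneg_left e1 hε.le)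
  have k2 := (h v).trans (mul_le_mul_of_nonneg_left e2 hε.le)
  have k3 := (h (u + v)).trans (mul_le_mul_of_nonneg_left e3 hε.le)
  have hsum : ∑ ω, p ω * (√|F u - dot (lam ω) u| + √|F v - dot (lam ω) v| +
      √|F (u + v) - dot (lam ω) (u + v)|) ≤ ∑ ω, p ω * (3 * ε * √(N1 u + N1 v)) := by
    rw [← Finset.sum_mul, h1, one_mul]
    simp only [mul_add, Finset.sum_add_distrib]
    linarith
  obtain ⟨ω, -, hω⟩ := Finset.exists_le_of_sum_le hne hsum
  have hω' := le_of_mul_le_mul_left hω (hp ω)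
  set a := |F u - dot (lam ω) u| with ha
  set b := |F v - dot (lam ω) v| with hb
  set c := |F (u + v) - dot (lam ω) (u + v)| with hc
  have ha0 : 0 ≤ a := abs_nonneg _
  have hb0 : 0 ≤ b := abs_nonneg _
  have hc0 : 0 ≤ c := abs_nonneg _
  have sa := Real.sq_sqrt ha0
  have sb := Real.sq_sqrt hb0
  have sc := Real.sq_sqrt hc0
  have pa := Real.sqrt_nonneg a
  have pb := Real.sqrt_nonneg b
  have pc := Real.sqrt_nonneg c
  have sN := Real.sq_sqrt (show 0 ≤ N1 u + N1 v by linarith)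
  have hsq : (√a + √b + √c) ^ 2 ≤ (3 * ε * √(N1 u + N1 v)) ^ 2 :=
    pow_le_pow_left₀ (by linarith) hω' 2
  have hexp : (3 * ε * √(N1 u + N1 v)) ^ 2 = 9 * ε ^ 2 * (N1 u + N1 v) := by
    rw [mul_pow, mul_pow, sN]
    norm_num
  have habc : a + b + c ≤ 9 * ε ^ 2 * (N1 u + N1 v) := by
    rw [hexp] at hsq
    nlinarith [mul_nonneg pa pb, mul_nonneg pa pc, mul_nonneg pb pc]
  have htri : |F (u + v) - F u - F v| ≤ a + b + c := by
    have e : F (u + v) - F u - F v = (F (u + v) - dot (lam ω) (u + v)) -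
        (F u - dot (lam ω) u) - (F v - dot (lam ω) v) := by
      rw [dot_add]
      ring
    rw [e]
    have t1 := abs_sub (F (u + v) - dot (lam ω) (u + v) - (F u - dot (lam ω) u))
      (F v - dot (lam ω) v)
    have t2 := abs_sub (F (u + v) - dot (lam ω) (u + v)) (F u - dot (lam ω) u)
    linarith
  have hpos : 0 ≤ ε ^ 2 * (N1 u + N1 v) := mul_nonneg (sq_nonneg _) (by linarith)
  nlinarith

end Pool.Agent.W_MP_68deb0_h42
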