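import Mathlib

set_option autoImplicit false

namespace Pool.Agent.W_MP_68deb0_h42

open Finset

/-- The l_1 norm on a finite coordinate space. -/
noncomputable def N1 {ι : Type} [Fintype ι] (v : ι → ℝ) : ℝ := ∑ i, |v i|

/-- The pairing of two coordinate vectors. -/
noncomputable def dot {ι : Type} [Fintype ι] (a v : ι → ℝ) : ℝ := ∑ i, a i * v i

/-- Iterated square root, the modulus of continuity of the stage `n`. -/
noncomputable def Gam : ℕ → ℝ → ℝ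
  | 0, s => s
  | n + 1, s => Real.sqrt (Gam n s)

/-- The level function (a truncated Ribe function): mean over `j < J` of the mass of `x` sitting on
coordinates with `4^(j+1) |x i| ≤ μ i ‖x‖`. -/
noncomputable def lev {I : Type} [Fintype I] (J : ℕ) (μ : I → ℝ) (x : I → ℝ) : ℝ :=
  (1 / (J : ℝ)) * ∑ j ∈ range J, ∑ i, if 4 ^ (j + 1) * |x i| ≤ μ i * N1 x then x i else 0

/-- `F` is approximated, in the mean of the square root, by random linear functionals. -/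
def Lin {ι Ω : Type} [Fintype ι] [Fintype Ω] (p : Ω → ℝ) (F : (ι → ℝ) → ℝ)
    (lam : Ω → ι → ℝ) (ε : ℝ) : Prop :=
  ∀ v, ∑ ω, p ω * √|F v - dot (lam ω) v| ≤ ε * √(N1 v)

/-- The error of the random linearization of `lev J μ`. -/
noncomputable def ef (J : ℕ) : ℝ := √√(2 / (J : ℝ)) + 2 / (J : ℝ)

/-- A closed leaf path of length `m` in `ℝ^m`. -/
structure Helix (m : ℕ) where
  psi : ℝ → Fin m → ℝ
  psi_zero : psi 0 = 0
  bdd : ∀ φ φ' : ℝ, N1 (psi φ - psi φ') ≤ 2 * m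
  leaf : ∀ φ D : ℝ, ∃ q : Fin m → ℝ, (∀ l, 0 ≤ q l) ∧ ∑ l, q l = 1 ∧
    ((univ.filter (fun l => q l ≠ 0)).card : ℝ) ≤ |D| + 2 ∧
    ∀ l, psi (φ + D) l - psi φ l = D * (1 / (m : ℝ) - q l)

/-- The displacement at level `m` : to a phase `φ ω` for every `ω` we attach a vector of
`ℝ^(Ω × Fin m)`. -/
noncomputable def disp {Ω : Type} {m : ℕ} (p : Ω → ℝ) (H : Helix m) (φ : Ω → ℝ) :
    Ω × Fin m → ℝ := fun i => p i.1 * H.psi (φ i.1) i.2

/-- The data of a twisted sum `ℝ +_F ℝ^ι` with `n` levels together with a nonlinear map `G`. -/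
structure Stage (n : ℕ) (ε : ℝ) where
  ι : Type
  Ω : Type
  [fι : Fintype ι]
  [fΩ : Fintype Ω]
  p : Ω → ℝ
  p_pos : ∀ ω, 0 < p ω
  p_sum : ∑ ω, p ω = 1
  F : (ι → ℝ) → ℝ
  lam : Ω → ι → ℝ
  G : ℝ → (ι → ℝ) ≃ (ι → ℝ)
  F_smul : ∀ (a : ℝ) (v : ι → ℝ), F (a • v) = a * F v
  F_le : ∀ v, |F v| ≤ 2 ^ n * N1 v
  lin : Lin p F lam ε
  up : ∀ (t t' : ℝ) (v v' : ι → ℝ),
    N1 (G t v - G t' v') ≤ 5 * N1 (v - v') + 4 * |t - t' - F (v - v')| +
      ε * √(N1 (v - v') + |t - t' - F (v - v')|)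
  down : ∀ (t t' : ℝ) (v v' : ι → ℝ),
    N1 (G t v - G t' v') + |t - t'| / 2 ^ n ≤ 1 →
    N1 (v - v') + 4 * |t - t' - F (v - v')| ≤
      6 * (N1 (G t v - G t' v') + |t - t'| / 2 ^ n) +
      ε * Gam n (N1 (G t v - G t' v') + |t - t'| / 2 ^ n)
  G_zero : G 0 0 = 0
  nonconvex : n ≠ 0 → ∃ (k : ℕ) (e : Fin k → ι → ℝ), 0 < k ∧ (∀ i, N1 (e i) ≤ 1) ∧
    (∀ i, F (e i) = 0) ∧ 2 ^ (n - 1) ≤ F ((1 / (k : ℝ)) • ∑ i, e i)

attribute [instance] Stage.fι Stage.fΩ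

end Pool.Agent.W_MP_68deb0_h42
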