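
import Pool.Agent.W_MP_68deb0_h42.Basic

set_option autoImplicit false

namespace Pool.Agent.W_MP_68deb0_h42

open Finset

variable {Ω : Type} [Fintype Ω]

/-- the norm of a vector of leaf form -/
theorem disp_leaf_le {m : ℕ} {D : ℝ} {q : Fin m → ℝ} (h0 : ∀ l, 0 ≤ q l) (h1 : ∑ l, q l = 1) :
    ∑ l, |D * (1 / (m : ℝ) - q l)| ≤ 2 * |D| := by
  have h2 : ∑ l : Fin m, |1 / (m : ℝ) - q l| ≤ 2 := by
    have h3 : ∀ l : Fin m, |1 / (m : ℝ) - q l| ≤ 1 / (m : ℝ) + q l := by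
      intro l
      have h4 : (0 : ℝ) ≤ 1 / (m : ℝ) := by positivity
      have h5 := h0 l
      rw [abs_le]
      constructor <;> linarith
    calc ∑ l : Fin m, |1 / (m : ℝ) - q l| ≤ ∑ l : Fin m, (1 / (m : ℝ) + q l) :=
          Finset.sum_le_sum fun l _ => h3 l
      _ = (m : ℝ) * (1 / (m : ℝ)) + 1 := by
          rw [Finset.sum_add_distrib, h1, Finset.sum_const, Finset.card_univ, Fintype.card_fin,
            nsmul_eq_mul]
      _ ≤ 2 := by
          have h6 : (m : ℝ) * (1 / (m : ℝ)) ≤ 1 := by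
            by_cases hm : (m : ℝ) = 0
            · rw [hm]
              norm_num
            · rw [mul_one_div_cancel hm]
          linarith
  have h7 : ∑ l, |D * (1 / (m : ℝ) - q l)| = |D| * ∑ l : Fin m, |1 / (m : ℝ) - q l| := by
    rw [Finset.mul_sum]
    exact Finset.sum_congr rfl fun l _ => abs_mul _ _
  rw [h7]
  nlinarith [abs_nonneg D]

/-- the distance of two points of a helix -/
theorem disp_psi_le {m : ℕ} (H : Helix m) (x e : ℝ) :
    N1 (H.psi (x + 2 * e) - H.psi x) ≤ 2 * √(2 * m) * √|e| := by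
  have h1 : N1 (H.psi (x + 2 * e) - H.psi x) ≤ 2 * m := H.bdd _ _
  have h2 : N1 (H.psi (x + 2 * e) - H.psi x) ≤ 4 * |e| := by
    obtain ⟨q, h0, h1, -, h3⟩ := H.leaf x (2 * e)
    have h4 : N1 (H.psi (x + 2 * e) - H.psi x) = ∑ l, |2 * e * (1 / (m : ℝ) - q l)| := by
      unfold N1
      refine Finset.sum_congr rfl fun l _ => ?_
      rw [Pi.sub_apply, h3 l]
    rw [h4]
    refine (disp_leaf_le h0 h1).trans (le_of_eq ?_)
    rw [abs_mul, abs_two]
    ring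
  have h0 : 0 ≤ N1 (H.psi (x + 2 * e) - H.psi x) := N1_nonneg _
  have hm : (0 : ℝ) ≤ 2 * m := by positivity
  have h5 : N1 (H.psi (x + 2 * e) - H.psi x) ^ 2 ≤ (2 * √(2 * m) * √|e|) ^ 2 := by
    rw [mul_pow, mul_pow, Real.sq_sqrt hm, Real.sq_sqrt (abs_nonneg e), pow_two]
    calc N1 (H.psi (x + 2 * e) - H.psi x) * N1 (H.psi (x + 2 * e) - H.psi x) ≤
        (2 * m) * (4 * |e|) := mul_le_mul h1 h2 h0 hm
      _ = 2 ^ 2 * (2 * m) * |e| := by ring
  exact (pow_le_pow_iff_left₀ h0 (by positivity) two_ne_zero).1 h5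

/-- The difference of two displacements splits into a leaf displacement of height `D` and an
error. -/
theorem disp_split {m : ℕ} (H : Helix m) (p : Ω → ℝ) (hp : ∀ ω, 0 < p ω) (h1 : ∑ ω, p ω = 1)
    (φ φ' e : Ω → ℝ) (D : ℝ) (h : ∀ ω, φ ω = φ' ω + (D + 2 * e ω)) :
    ∃ (q : Ω → Fin m → ℝ) (w : Ω × Fin m → ℝ), (∀ ω l, 0 ≤ q ω l) ∧ (∀ ω, ∑ l, q ω l = 1) ∧
      (∀ ω, ((univ.filter (fun l => q ω l ≠ 0)).card : ℝ) ≤ |D| + 2) ∧
      disp p H φ - disp p H φ' = (fun i => p i.1 * (D * (1 / (m : ℝ) - q i.1 i.2))) + w ∧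
      N1 (fun i : Ω × Fin m => p i.1 * (D * (1 / (m : ℝ) - q i.1 i.2))) ≤ 2 * |D| ∧
      N1 w ≤ 2 * √(2 * m) * ∑ ω, p ω * √|e ω| := by
  choose q hq0 hq1 hqc hql using fun ω => H.leaf (φ' ω) D
  refine ⟨q, fun i => p i.1 * (H.psi (φ i.1) i.2 - H.psi (φ' i.1 + D) i.2), hq0, hq1, hqc,
    ?_, ?_, ?_⟩
  · funext i
    have h2 := hql i.1 i.2
    simp only [Pi.sub_apply, Pi.add_apply, disp]
    rw [← h2]
    ring
  · have h3 : N1 (fun i : Ω × Fin m => p i.1 * (D * (1 / (m : ℝ) - q i.1 i.2))) =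
        ∑ ω, p ω * ∑ l, |D * (1 / (m : ℝ) - q ω l)| := by
      unfold N1
      rw [Fintype.sum_prod_type]
      refine Finset.sum_congr rfl fun ω _ => ?_
      rw [Finset.mul_sum]
      refine Finset.sum_congr rfl fun l _ => ?_
      rw [abs_mul, abs_of_pos (hp ω)]
    rw [h3]
    calc ∑ ω, p ω * ∑ l, |D * (1 / (m : ℝ) - q ω l)| ≤ ∑ ω, p ω * (2 * |D|) :=
          Finset.sum_le_sum fun ω _ =>
            mul_le_mul_of_nonneg_left (disp_leaf_le (hq0 ω) (hq1 ω)) (hp ω).le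
      _ = 2 * |D| := by rw [← Finset.sum_mul, h1, one_mul]
  · have h3 : N1 (fun i : Ω × Fin m => p i.1 * (H.psi (φ i.1) i.2 - H.psi (φ' i.1 + D) i.2)) =
        ∑ ω, p ω * N1 (H.psi (φ ω) - H.psi (φ' ω + D)) := by
      unfold N1
      rw [Fintype.sum_prod_type]
      refine Finset.sum_congr rfl fun ω _ => ?_
      rw [Finset.mul_sum]
      refine Finset.sum_congr rfl fun l _ => ?_
      rw [abs_mul, abs_of_pos (hp ω), Pi.sub_apply]
    rw [h3, Finset.mul_sum]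
    refine Finset.sum_le_sum fun ω _ => ?_
    have h4 : N1 (H.psi (φ ω) - H.psi (φ' ω + D)) ≤ 2 * √(2 * m) * √|e ω| := by
      have h5 := disp_psi_le H (φ' ω + D) (e ω)
      have h6 : φ' ω + D + 2 * e ω = φ ω := by
        rw [h ω]
        ring
      rw [h6] at h5
      exact h5
    calc p ω * N1 (H.psi (φ ω) - H.psi (φ' ω + D)) ≤ p ω * (2 * √(2 * m) * √|e ω|) :=
          mul_le_mul_of_nonneg_left h4 (hp ω).le
      _ = 2 * √(2 * m) * (p ω * √|e ω|) := by ring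

end Pool.Agent.W_MP_68deb0_h42
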