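import Pool.Agent.W_MP_68deb0_h42.Basic

set_option autoImplicit false

namespace Pool.Agent.W_MP_68deb0_h42

open Finset

theorem geo_small_aux (J : ℕ) (y N : ℝ) (hy : 0 ≤ y) (hN : 0 ≤ N) :
    ∑ j ∈ (range J).filter (fun j => 4 ^ (j + 1) * y ≤ N), 4 ^ (j + 1) * y ≤ 4 / 3 * N ∧
    ∑ j ∈ (range J).filter (fun j => 4 ^ (j + 1) * y ≤ N), 4 ^ (j + 1) * y ≤
      4 / 3 * (4 ^ J * y) := by
  induction J with
  | zero =>
    simp only [range_zero, filter_empty, sum_empty]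
    constructor
    · positivity
    · positivity
  | succ J ih =>
    have hp : (0 : ℝ) ≤ 4 ^ J * y := by positivity
    have h4 : (4 : ℝ) ^ (J + 1) * y = 4 * (4 ^ J * y) := by ring
    rw [range_add_one, filter_insert]
    split_ifs with h
    · rw [sum_insert (by simp)]
      rw [h4] at h ⊢
      constructor
      · linarith [ih.2]
      · linarith [ih.2]
    · rw [h4]
      constructor
      · exact ih.1
      · linarith [ih.2]

theorem geo_small (J : ℕ) (y N : ℝ) (hy : 0 ≤ y) (hN : 0 ≤ N) :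
    ∑ j ∈ (range J).filter (fun j => 4 ^ (j + 1) * y ≤ N), 4 ^ (j + 1) * y ≤ 4 / 3 * N :=
  (geo_small_aux J y N hy hN).1

theorem geo_half (J : ℕ) (y : ℝ) :
    1 / √(4 ^ (J + 1) * y) = (1 / √(4 ^ J * y)) / 2 := by
  have h4 : (4 : ℝ) ^ (J + 1) * y = 4 * (4 ^ J * y) := by ring
  have h2 : √(4 : ℝ) = 2 := by
    rw [show (4 : ℝ) = 2 ^ 2 by norm_num]
    exact Real.sqrt_sq (by norm_num)
  rw [h4, Real.sqrt_mul (by norm_num), h2, one_div, one_div, mul_inv]
  ring

theorem geo_big_aux (J : ℕ) (y N : ℝ) (hy : 0 ≤ y) (hN : 0 < N) :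
    ∑ j ∈ (range J).filter (fun j => ¬ (4 ^ (j + 1) * y ≤ N)), 1 / √(4 ^ (j + 1) * y) = 0 ∨
    ∑ j ∈ (range J).filter (fun j => ¬ (4 ^ (j + 1) * y ≤ N)), 1 / √(4 ^ (j + 1) * y) +
      1 / √(4 ^ J * y) ≤ 2 / √N := by
  induction J with
  | zero =>
    left
    simp
  | succ J ih =>
    have ht : (0 : ℝ) ≤ 1 / √(4 ^ J * y) := by positivity
    have hh := geo_half J y
    rw [range_add_one, filter_insert]
    by_cases h : 4 ^ (J + 1) * y ≤ N
    · rw [if_neg (not_not.2 h)]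
      rcases ih with ih | ih
      · left
        exact ih
      · right
        linarith
    · rw [if_pos h]
      right
      rw [sum_insert (by simp)]
      rcases ih with ih | ih
      · rw [ih]
        have hs : √N ≤ √(4 ^ (J + 1) * y) := Real.sqrt_le_sqrt (not_le.1 h).le
        have hs0 : 0 < √N := Real.sqrt_pos.2 hN
        have h3 : 1 / √(4 ^ (J + 1) * y) ≤ 1 / √N := one_div_le_one_div_of_le hs0 hs
        have h5 : 2 / √N = 1 / √N + 1 / √N := by ring
        rw [h5]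
        linarith
      · linarith

theorem geo_big (J : ℕ) (y N : ℝ) (hy : 0 ≤ y) (hN : 0 < N) :
    ∑ j ∈ (range J).filter (fun j => ¬ (4 ^ (j + 1) * y ≤ N)), 1 / √(4 ^ (j + 1) * y) ≤ 2 / √N := by
  rcases geo_big_aux J y N hy hN with h | h
  · rw [h]
    positivity
  · have ht : (0 : ℝ) ≤ 1 / √(4 ^ J * y) := by positivity
    linarith

theorem geo_count_aux (J : ℕ) (y : ℝ) (hy : 0 ≤ y) :
    ∑ j ∈ range J, (if 4 ^ (j + 1) * y ≤ 1 then y else 0) ≤ J * y ∧
    ∑ j ∈ range J, (if 4 ^ (j + 1) * y ≤ 1 then y else 0) ≤ 1 / 4 := by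
  induction J with
  | zero => simp
  | succ J ih =>
    rw [sum_range_succ]
    have h1 : ((J + 1 : ℕ) : ℝ) ≤ 4 ^ J := by
      have h2 : J + 1 ≤ 4 ^ J := by
        have := Nat.lt_pow_self (n := J) (show 1 < 4 by norm_num)
        omega
      calc ((J + 1 : ℕ) : ℝ) ≤ ((4 ^ J : ℕ) : ℝ) := Nat.cast_le.2 h2
        _ = 4 ^ J := by push_cast; rfl
    have h3 : ((J + 1 : ℕ) : ℝ) * y ≤ 4 ^ J * y := mul_le_mul_of_nonneg_right h1 hy
    push_cast at h3 ⊢
    split_ifs with h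
    · have h4 : (4 : ℝ) ^ (J + 1) * y = 4 * (4 ^ J * y) := by ring
      rw [h4] at h
      constructor
      · linarith [ih.1]
      · linarith [ih.1]
    · constructor
      · linarith [ih.1]
      · linarith [ih.2]

/-- The number of `j` with `4^(j+1) y ≤ 1`, times `y`, is at most `1/4`. -/
theorem geo_count (J : ℕ) (y : ℝ) (hy : 0 ≤ y) :
    ∑ j ∈ range J, (if 4 ^ (j + 1) * y ≤ 1 then y else 0) ≤ 1 / 4 :=
  (geo_count_aux J y hy).2

end Pool.Agent.W_MP_68deb0_h42
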