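import Pool.Agent.W_MP_68deb0_h42.Basic

set_option autoImplicit false

namespace Pool.Agent.W_MP_68deb0_h42

open Finset

/-- the length of the part of `[0, y]` in the cells `[k, k+1)`, `k` a multiple of `m` -/
noncomputable def hxh (m : ℕ) (y : ℝ) : ℝ := ⌊y / m⌋ + min 1 (y - m * ⌊y / m⌋)

lemma hxh_floor {m : ℕ} (hm : 0 < m) (y : ℝ) :
    0 ≤ y - m * (⌊y / m⌋ : ℝ) ∧ y - m * (⌊y / m⌋ : ℝ) < m := by
  have h0 : (0 : ℝ) < m := by exact_mod_cast hm
  have h1 := Int.floor_le (y / m)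
  have h2 := Int.lt_floor_add_one (y / m)
  rw [le_div_iff₀ h0] at h1
  rw [div_lt_iff₀ h0] at h2
  constructor <;> nlinarith

lemma hxh_eq {m : ℕ} (hm : 0 < m) (k : ℤ) {r : ℝ} (h0 : 0 ≤ r) (h1 : r < m) :
    hxh m (m * k + r) = k + min 1 r := by
  have hm' : (0 : ℝ) < m := by exact_mod_cast hm
  have h2 : ⌊(m * k + r) / (m : ℝ)⌋ = k := by
    rw [Int.floor_eq_iff]
    constructor
    · rw [le_div_iff₀ hm']; nlinarith
    · rw [div_lt_iff₀ hm']; nlinarith
  unfold hxh
  rw [h2]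
  congr 2
  ring

lemma hxh_add {m : ℕ} (hm : 0 < m) (y : ℝ) : hxh m (y + m) = hxh m y + 1 := by
  obtain ⟨h0, h1⟩ := hxh_floor hm y
  have h2 : y + m = m * ((⌊y / m⌋ + 1 : ℤ) : ℝ) + (y - m * (⌊y / m⌋ : ℝ)) := by
    push_cast; ring
  rw [h2, hxh_eq hm _ h0 h1]
  unfold hxh
  push_cast
  ring

lemma hxh_near {m : ℕ} (hm : 0 < m) (y : ℝ) : |y / m - hxh m y| ≤ 1 := by
  obtain ⟨h0, h1⟩ := hxh_floor hm y
  have h2 := Int.floor_le (y / m)
  have h3 := Int.lt_floor_add_one (y / m)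
  have h4 : 0 ≤ min 1 (y - m * (⌊y / m⌋ : ℝ)) := le_min zero_le_one h0
  have h5 : min 1 (y - m * (⌊y / m⌋ : ℝ)) ≤ 1 := min_le_left _ _
  unfold hxh
  rw [abs_le]
  constructor <;> linarith

lemma hxh_mono {m : ℕ} (hm : 0 < m) {y y' : ℝ} (h : y ≤ y') : hxh m y ≤ hxh m y' := by
  have hm' : (0 : ℝ) < m := by exact_mod_cast hm
  have h1 : ⌊y / m⌋ ≤ ⌊y' / m⌋ := Int.floor_le_floor (div_le_div_of_nonneg_right h hm'.le)
  rcases h1.eq_or_lt with h2 | h2
  · unfold hxh
    rw [h2]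
    exact add_le_add le_rfl (min_le_min le_rfl (by linarith))
  · have h3 : ((⌊y / m⌋ : ℤ) : ℝ) + 1 ≤ (⌊y' / m⌋ : ℤ) := by exact_mod_cast h2
    have h4 : min 1 (y - m * (⌊y / m⌋ : ℝ)) ≤ 1 := min_le_left _ _
    have h5 : 0 ≤ min 1 (y' - m * (⌊y' / m⌋ : ℝ)) := le_min zero_le_one (hxh_floor hm y').1
    unfold hxh
    linarith

/-- `hxh` increases only on the cells -/
lemma hxh_cell {m : ℕ} (hm : 0 < m) {y y' : ℝ} (h : y < y') (hne : hxh m y ≠ hxh m y') :
    ∃ j : ℤ, (m * j : ℝ) < y' ∧ y < m * j + 1 := by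
  have hm' : (0 : ℝ) < m := by exact_mod_cast hm
  obtain ⟨a0, a1⟩ := hxh_floor hm y
  obtain ⟨b0, b1⟩ := hxh_floor hm y'
  by_cases h1 : y - m * (⌊y / m⌋ : ℝ) < 1
  · exact ⟨⌊y / m⌋, by linarith, by linarith⟩
  · push Not at h1
    refine ⟨⌊y / m⌋ + 1, ?_, ?_⟩
    · by_contra hc
      push Not at hc
      apply hne
      push_cast at hc
      rcases hc.lt_or_eq with hc | hc
      · have h2 : ⌊y' / m⌋ = ⌊y / m⌋ := by
          rw [Int.floor_eq_iff]
          constructor
          · rw [le_div_iff₀ hm']; linarith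
          · rw [div_lt_iff₀ hm']; linarith
        unfold hxh
        rw [h2, min_eq_left h1, min_eq_left (by linarith)]
      · have h3 : y' = m * ((⌊y / m⌋ + 1 : ℤ) : ℝ) + 0 := by push_cast; linarith
        rw [h3, hxh_eq hm _ le_rfl hm', min_eq_right zero_le_one]
        unfold hxh
        rw [min_eq_left h1]
        push_cast
        ring
    · push_cast
      linarith

/-- the sum over all residues -/
lemma hxh_sum {m : ℕ} (hm : 0 < m) (y : ℝ) : ∑ l ∈ range m, hxh m (y - l) = y := by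
  have hm' : (0 : ℝ) < m := by exact_mod_cast hm
  -- shift by one
  have step : ∀ y : ℝ, ∑ l ∈ range m, hxh m (y + 1 - l) = ∑ l ∈ range m, hxh m (y - l) + 1 := by
    intro y
    obtain ⟨n, rfl⟩ : ∃ n, m = n + 1 := ⟨m - 1, by omega⟩
    rw [Finset.sum_range_succ', Finset.sum_range_succ (fun l : ℕ => hxh (n + 1) (y - l))]
    have h1 := hxh_add hm (y - n)
    have h2 : y - n + ((n + 1 : ℕ) : ℝ) = y + 1 - ((0 : ℕ) : ℝ) := by push_cast; ring
    rw [h2] at h1
    rw [h1, ← add_assoc]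
    congr 2
    refine Finset.sum_congr rfl fun l _ => ?_
    congr 1
    push_cast
    ring
  have stepn : ∀ (n : ℕ) (y : ℝ), ∑ l ∈ range m, hxh m (y + n - l)
      = ∑ l ∈ range m, hxh m (y - l) + n := by
    intro n
    induction n with
    | zero => intro y; simp
    | succ n ih =>
      intro y
      have h1 := step (y + n)
      rw [ih y] at h1
      push_cast
      rw [← add_assoc, h1]
      ring
  have stepz : ∀ (k : ℤ) (y : ℝ), ∑ l ∈ range m, hxh m (y + k - l)
      = ∑ l ∈ range m, hxh m (y - l) + k := by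
    intro k y
    obtain ⟨n, hn | hn⟩ := k.eq_nat_or_neg
    · rw [hn]
      exact_mod_cast stepn n y
    · have h1 := stepn n (y + k)
      rw [hn] at h1 ⊢
      push_cast at h1 ⊢
      rw [neg_add_cancel_right] at h1
      linarith
  -- the fundamental cell
  have base : ∀ r : ℝ, 0 ≤ r → r < 1 → ∑ l ∈ range m, hxh m (r - l) = r := by
    intro r h0 h1
    obtain ⟨n, rfl⟩ : ∃ n, m = n + 1 := ⟨m - 1, by omega⟩
    have hn : (1 : ℝ) ≤ ((n + 1 : ℕ) : ℝ) := by exact_mod_cast hm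
    rw [Finset.sum_range_succ']
    have h2 : hxh (n + 1) (r - ((0 : ℕ) : ℝ)) = r := by
      have h3 := hxh_eq hm 0 h0 (h1.trans_le hn)
      rw [min_eq_right h1.le] at h3
      simpa using h3
    rw [h2, Finset.sum_eq_zero, zero_add]
    intro l hl
    rw [Finset.mem_range] at hl
    have hl' : ((l : ℕ) : ℝ) + 1 ≤ n := by exact_mod_cast hl
    have h3 := hxh_eq hm (-1) (r := r - ((l + 1 : ℕ) : ℝ) + ((n + 1 : ℕ) : ℝ))
      (by push_cast; linarith) (by push_cast; linarith [Nat.cast_nonneg (α := ℝ) l])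
    rw [min_eq_left (by push_cast; linarith)] at h3
    have h4 : ((n + 1 : ℕ) : ℝ) * ((-1 : ℤ) : ℝ) + (r - ((l + 1 : ℕ) : ℝ) + ((n + 1 : ℕ) : ℝ))
        = r - ((l + 1 : ℕ) : ℝ) := by push_cast; ring
    rw [h4] at h3
    rw [h3]
    norm_num
  have h1 := stepz ⌊y⌋ (Int.fract y)
  rw [Int.fract_add_floor, base _ (Int.fract_nonneg y) (Int.fract_lt_one y),
    Int.fract_add_floor] at h1
  exact h1

/-- the number of the residues which are met -/
lemma hxh_card {m : ℕ} (hm : 0 < m) {φ D : ℝ} (hD : 0 < D) :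
    ((univ.filter (fun l : Fin m => hxh m (φ + D - (l : ℕ)) - hxh m (φ - (l : ℕ)) ≠ 0)).card : ℝ)
      ≤ D + 2 := by
  classical
  have h1 : ∀ l : Fin m, hxh m (φ + D - (l : ℕ)) - hxh m (φ - (l : ℕ)) ≠ 0 →
      ∃ j : ℤ, (m * j : ℝ) < φ + D - (l : ℕ) ∧ φ - (l : ℕ) < m * j + 1 := by
    intro l hl
    exact hxh_cell hm (by linarith) (fun h => hl (by rw [h, sub_self]))
  choose! f hf using h1
  have h2 : (univ.filter (fun l : Fin m =>
      hxh m (φ + D - (l : ℕ)) - hxh m (φ - (l : ℕ)) ≠ 0)).card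
      ≤ (Finset.Ioo ⌊φ - 1⌋ ⌈φ + D⌉).card := by
    refine Finset.card_le_card_of_injOn (fun l => (m : ℤ) * f l + (l : ℕ)) ?_ ?_
    · intro l hl
      rw [Finset.mem_coe, Finset.mem_filter] at hl
      obtain ⟨a1, a2⟩ := hf l hl.2
      rw [Finset.mem_coe, Finset.mem_Ioo]
      constructor
      · rw [Int.floor_lt]
        push_cast
        linarith
      · rw [Int.lt_ceil]
        push_cast
        linarith
    · intro l _ l' _ h
      have h3 : ((m : ℤ) * f l + (l : ℕ)) % m = ((m : ℤ) * f l' + (l' : ℕ)) % m := by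
        simp only at h
        rw [h]
      rw [Int.mul_add_emod_self_left, Int.mul_add_emod_self_left,
        Int.emod_eq_of_lt (by positivity) (by exact_mod_cast l.2),
        Int.emod_eq_of_lt (by positivity) (by exact_mod_cast l'.2)] at h3
      exact Fin.ext (by exact_mod_cast h3)
  have h3 : ((Finset.Ioo ⌊φ - 1⌋ ⌈φ + D⌉).card : ℝ) ≤ D + 2 := by
    rw [Int.card_Ioo]
    have h4 := Int.ceil_lt_add_one (φ + D)
    have h5 := Int.sub_one_lt_floor (φ - 1)
    have h6 : (((⌈φ + D⌉ - ⌊φ - 1⌋ - 1).toNat : ℤ) : ℝ) ≤ D + 2 := by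
      rw [Int.toNat_eq_max]
      push_cast
      rw [max_le_iff]
      constructor <;> linarith
    exact_mod_cast h6
  exact le_trans (by exact_mod_cast h2) h3

theorem exists_helix (m : ℕ) (hm : 0 < m) : Nonempty (Helix m) := by
  have hm' : (0 : ℝ) < m := by exact_mod_cast hm
  refine ⟨{
    psi := fun φ l => φ / m - (hxh m (φ - (l : ℕ)) - hxh m (0 - (l : ℕ)))
    psi_zero := ?_
    bdd := ?_
    leaf := ?_ }⟩
  · funext l
    simp
  · intro φ φ'
    unfold N1
    have h1 : ∀ l : Fin m, |((fun l : Fin m => φ / m - (hxh m (φ - (l : ℕ)) - hxh m (0 - (l : ℕ))))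
        - fun l : Fin m => φ' / m - (hxh m (φ' - (l : ℕ)) - hxh m (0 - (l : ℕ)))) l| ≤ 2 := by
      intro l
      have h2 := hxh_near hm (φ - (l : ℕ))
      have h3 := hxh_near hm (φ' - (l : ℕ))
      rw [sub_div] at h2 h3
      rw [abs_le] at h2 h3 ⊢
      simp only [Pi.sub_apply]
      constructor <;> linarith [h2.1, h2.2, h3.1, h3.2]
    refine (Finset.sum_le_sum fun l _ => h1 l).trans ?_
    rw [Finset.sum_const, Finset.card_univ, Fintype.card_fin, nsmul_eq_mul, mul_comm]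
  · -- positive steps
    have key : ∀ φ D : ℝ, 0 < D → ∃ q : Fin m → ℝ, (∀ l, 0 ≤ q l) ∧ ∑ l, q l = 1 ∧
        ((univ.filter (fun l => q l ≠ 0)).card : ℝ) ≤ D + 2 ∧
        ∀ l : Fin m, hxh m (φ + D - (l : ℕ)) - hxh m (φ - (l : ℕ)) = D * q l := by
      intro φ D hD
      refine ⟨fun l => (hxh m (φ + D - (l : ℕ)) - hxh m (φ - (l : ℕ))) / D, ?_, ?_, ?_, ?_⟩
      · intro l
        exact div_nonneg (sub_nonneg.2 (hxh_mono hm (by linarith))) hD.le
      · rw [← Finset.sum_div, Finset.sum_sub_distrib,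
          ← Finset.sum_range (fun l : ℕ => hxh m (φ + D - l)),
          ← Finset.sum_range (fun l : ℕ => hxh m (φ - l)), hxh_sum hm, hxh_sum hm,
          add_sub_cancel_left, div_self hD.ne']
      · have h1 := hxh_card hm (φ := φ) hD
        have h2 : (univ.filter (fun l : Fin m =>
            (hxh m (φ + D - (l : ℕ)) - hxh m (φ - (l : ℕ))) / D ≠ 0))
            = univ.filter (fun l : Fin m => hxh m (φ + D - (l : ℕ)) - hxh m (φ - (l : ℕ)) ≠ 0) := by
          refine Finset.filter_congr fun l _ => ?_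
          rw [ne_eq, div_eq_zero_iff, not_or]
          exact ⟨fun h => h.1, fun h => ⟨h, hD.ne'⟩⟩
        rw [h2]
        exact h1
      · intro l
        field_simp
    intro φ D
    rcases lt_trichotomy D 0 with hD | hD | hD
    · obtain ⟨q, h1, h2, h3, h4⟩ := key (φ + D) (-D) (by linarith)
      refine ⟨q, h1, h2, by rw [abs_of_neg hD]; exact h3, fun l => ?_⟩
      have h5 := h4 l
      rw [add_neg_cancel_right] at h5
      field_simp at h5 ⊢
      linear_combination (m : ℝ) * h5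
    · refine ⟨Pi.single ⟨0, hm⟩ 1, ?_, ?_, ?_, ?_⟩
      · intro l
        by_cases h : l = ⟨0, hm⟩
        · rw [h, Pi.single_eq_same]; exact zero_le_one
        · rw [Pi.single_eq_of_ne h]
      · rw [Finset.sum_pi_single']
        simp
      · have h1 : (univ.filter (fun l : Fin m => (Pi.single (⟨0, hm⟩ : Fin m) (1 : ℝ) : Fin m → ℝ) l ≠ 0))
            ⊆ {⟨0, hm⟩} := by
          intro l hl
          rw [Finset.mem_filter] at hl
          rw [Finset.mem_singleton]
          by_contra h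
          exact hl.2 (Pi.single_eq_of_ne h _)
        have h2 := Finset.card_le_card h1
        rw [Finset.card_singleton] at h2
        have h3 : ((univ.filter (fun l : Fin m =>
          (Pi.single (⟨0, hm⟩ : Fin m) (1 : ℝ) : Fin m → ℝ) l ≠ 0)).card : ℝ) ≤ 1 := by
          exact_mod_cast h2
        linarith [abs_nonneg D]
      · intro l
        rw [hD]
        simp
    · obtain ⟨q, h1, h2, h3, h4⟩ := key φ D hD
      refine ⟨q, h1, h2, by rw [abs_of_pos hD]; exact h3, fun l => ?_⟩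
      have h5 := h4 l
      rw [mul_sub, ← h5]
      ring

end Pool.Agent.W_MP_68deb0_h42
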