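import Pool.Agent.W_MP_68deb0_h42.Basic

set_option autoImplicit false

namespace Pool.Agent.W_MP_68deb0_h42

open Finset

variable {Ω : Type} [Fintype Ω]

/-- The level function is `1` on the uniform vector. -/
theorem lev_avg (J : ℕ) (hJ : 0 < J) (p : Ω → ℝ) (hp : ∀ ω, 0 < p ω) (h1 : ∑ ω, p ω = 1) :
    N1 (fun i : Ω × Fin (4 ^ J) => p i.1 * (1 / (4 ^ J : ℝ))) = 1 ∧
    lev (I := Ω × Fin (4 ^ J)) J (fun i => p i.1) (fun i => p i.1 * (1 / (4 ^ J : ℝ))) = 1 := by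
  have h4 : (0 : ℝ) < 4 ^ J := by positivity
  have hsum : ∑ i : Ω × Fin (4 ^ J), p i.1 * (1 / (4 ^ J : ℝ)) = 1 := by
    rw [Fintype.sum_prod_type]
    simp only [Finset.sum_const, Finset.card_univ, Fintype.card_fin, nsmul_eq_mul]
    push_cast
    calc ∑ ω, (4 : ℝ) ^ J * (p ω * (1 / 4 ^ J)) = ∑ ω, p ω := by
          refine Finset.sum_congr rfl fun ω _ => ?_
          field_simp
      _ = 1 := h1
  have hN : N1 (fun i : Ω × Fin (4 ^ J) => p i.1 * (1 / (4 ^ J : ℝ))) = 1 := by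
    unfold N1
    refine Eq.trans (Finset.sum_congr rfl fun i _ => abs_of_nonneg ?_) hsum
    have := hp i.1
    positivity
  refine ⟨hN, ?_⟩
  unfold lev
  rw [hN]
  have hj : ∀ j ∈ range J, (∑ i : Ω × Fin (4 ^ J),
      if 4 ^ (j + 1) * |p i.1 * (1 / (4 ^ J : ℝ))| ≤ p i.1 * 1
      then p i.1 * (1 / (4 ^ J : ℝ)) else 0) = 1 := by
    intro j hj
    refine Eq.trans (Finset.sum_congr rfl fun i _ => if_pos ?_) hsum
    have hpi := hp i.1
    rw [abs_of_nonneg (by positivity), mul_one]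
    have h2 : (4 : ℝ) ^ (j + 1) ≤ 4 ^ J :=
      pow_le_pow_right₀ (by norm_num) (Nat.succ_le_of_lt (Finset.mem_range.1 hj))
    calc (4 : ℝ) ^ (j + 1) * (p i.1 * (1 / 4 ^ J)) ≤ 4 ^ J * (p i.1 * (1 / 4 ^ J)) :=
          mul_le_mul_of_nonneg_right h2 (by positivity)
      _ = p i.1 := by field_simp
  rw [Finset.sum_congr rfl hj]
  simp only [Finset.sum_const, Finset.card_range, nsmul_eq_mul, mul_one]
  have : (J : ℝ) ≠ 0 := by exact_mod_cast hJ.ne'
  field_simp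

/-- A basis vector of `Fin m` (constant in `ω`). -/
theorem lev_single (J : ℕ) (p : Ω → ℝ) (hp : ∀ ω, 0 < p ω) (h1 : ∑ ω, p ω = 1)
    (l : Fin (4 ^ J)) :
    N1 (fun i : Ω × Fin (4 ^ J) => p i.1 * (if i.2 = l then 1 else 0)) = 1 ∧
    lev (I := Ω × Fin (4 ^ J)) J (fun i => p i.1)
      (fun i => p i.1 * (if i.2 = l then 1 else 0)) = 0 := by
  have hN : N1 (fun i : Ω × Fin (4 ^ J) => p i.1 * (if i.2 = l then 1 else 0)) = 1 := by
    unfold N1
    rw [Fintype.sum_prod_type]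
    refine Eq.trans (Finset.sum_congr rfl fun ω _ => ?_) h1
    simp only [abs_mul, abs_of_pos (hp ω)]
    rw [← Finset.mul_sum, Finset.sum_eq_single l]
    · simp
    · intro b _ hb
      simp [hb]
    · intro h
      exact absurd (Finset.mem_univ l) h
  refine ⟨hN, ?_⟩
  unfold lev
  rw [hN]
  have hj : ∀ j ∈ range J, (∑ i : Ω × Fin (4 ^ J),
      if 4 ^ (j + 1) * |p i.1 * (if i.2 = l then (1 : ℝ) else 0)| ≤ p i.1 * 1
      then p i.1 * (if i.2 = l then (1 : ℝ) else 0) else 0) = 0 := by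
    intro j _
    refine Finset.sum_eq_zero fun i _ => ?_
    have hpi := hp i.1
    by_cases hl : i.2 = l
    · rw [if_pos hl]
      simp only [mul_one]
      rw [abs_of_pos hpi]
      refine if_neg (not_le.2 ?_)
      have h2 : (1 : ℝ) < 4 ^ (j + 1) := one_lt_pow₀ (by norm_num) (Nat.succ_ne_zero j)
      nlinarith
    · rw [if_neg hl, mul_zero, ite_self]
  rw [Finset.sum_congr rfl hj, Finset.sum_const_zero, mul_zero]

end Pool.Agent.W_MP_68deb0_h42
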