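import Pool.Agent.W_MP_68deb0_h42.Basic

set_option autoImplicit false

namespace Pool.Agent.W_MP_68deb0_h42

open Finset

variable {I : Type} [Fintype I]

theorem lev_smul (J : ℕ) (μ : I → ℝ) (a : ℝ) (x : I → ℝ) :
    lev J μ (a • x) = a * lev J μ x := by
  by_cases ha : a = 0
  · subst ha
    rw [zero_smul, zero_mul]
    unfold lev
    simp
  · have ha' : 0 < |a| := abs_pos.2 ha
    unfold lev
    rw [mul_left_comm]
    congr 1
    rw [Finset.mul_sum]
    refine Finset.sum_congr rfl fun j _ => ?_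
    rw [Finset.mul_sum]
    refine Finset.sum_congr rfl fun i _ => ?_
    have h : (4 ^ (j + 1) * |(a • x) i| ≤ μ i * N1 (a • x)) ↔
        (4 ^ (j + 1) * |x i| ≤ μ i * N1 x) := by
      rw [N1_smul, Pi.smul_apply, smul_eq_mul, abs_mul]
      have e1 : (4 : ℝ) ^ (j + 1) * (|a| * |x i|) = |a| * (4 ^ (j + 1) * |x i|) := by ring
      have e2 : μ i * (|a| * N1 x) = |a| * (μ i * N1 x) := by ring
      rw [e1, e2]
      exact mul_le_mul_iff_right₀ ha'
    by_cases hc : 4 ^ (j + 1) * |x i| ≤ μ i * N1 x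
    · rw [if_pos hc, if_pos (h.2 hc), Pi.smul_apply, smul_eq_mul]
    · rw [if_neg hc, if_neg (fun h' => hc (h.1 h')), mul_zero]

theorem lev_le (J : ℕ) (μ : I → ℝ) (x : I → ℝ) : |lev J μ x| ≤ N1 x := by
  unfold lev
  rcases Nat.eq_zero_or_pos J with hJ | hJ
  · subst hJ
    simp [N1_nonneg]
  · have hJ' : (0 : ℝ) < J := Nat.cast_pos.2 hJ
    rw [abs_mul, abs_of_pos (by positivity : (0 : ℝ) < 1 / (J : ℝ))]
    have h1 : |∑ j ∈ range J, ∑ i, if 4 ^ (j + 1) * |x i| ≤ μ i * N1 x then x i else 0| ≤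
        ∑ j ∈ range J, N1 x := by
      refine (Finset.abs_sum_le_sum_abs _ _).trans (Finset.sum_le_sum fun j _ => ?_)
      refine (Finset.abs_sum_le_sum_abs _ _).trans (Finset.sum_le_sum fun i _ => ?_)
      by_cases hc : 4 ^ (j + 1) * |x i| ≤ μ i * N1 x
      · rw [if_pos hc]
      · rw [if_neg hc, abs_zero]
        exact abs_nonneg _
    rw [Finset.sum_const, Finset.card_range, nsmul_eq_mul] at h1
    calc 1 / (J : ℝ) * |∑ j ∈ range J, ∑ i, if 4 ^ (j + 1) * |x i| ≤ μ i * N1 x then x i else 0|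
        ≤ 1 / (J : ℝ) * (J * N1 x) := mul_le_mul_of_nonneg_left h1 (by positivity)
      _ = N1 x := by field_simp

end Pool.Agent.W_MP_68deb0_h42
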