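import Pool.Agent.W_MP_68deb0_h42.Geo

set_option autoImplicit false

namespace Pool.Agent.W_MP_68deb0_h42

open Finset

variable {Ω : Type} [Fintype Ω]

/-- The level function is small on vectors with few atoms. -/
theorem lev_few (J : ℕ) (hJ : 0 < J) (p : Ω → ℝ) (hp : ∀ ω, 0 < p ω) (h1 : ∑ ω, p ω = 1)
    (B : ℝ) (q : Ω → Fin (4 ^ J) → ℝ) (hq : ∀ ω l, 0 ≤ q ω l) (hq1 : ∀ ω, ∑ l, q ω l = 1)
    (hB : ∀ ω, ((univ.filter (fun l => q ω l ≠ 0)).card : ℝ) ≤ B) :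
    N1 (fun i : Ω × Fin (4 ^ J) => p i.1 * q i.1 i.2) = 1 ∧
    |lev (I := Ω × Fin (4 ^ J)) J (fun i => p i.1) (fun i => p i.1 * q i.1 i.2)|
      ≤ B / (4 * J) := by
  have hJ' : (0 : ℝ) < J := by exact_mod_cast hJ
  have hx : ∀ i : Ω × Fin (4 ^ J), 0 ≤ p i.1 * q i.1 i.2 := fun i =>
    mul_nonneg (hp i.1).le (hq i.1 i.2)
  have hN : N1 (fun i : Ω × Fin (4 ^ J) => p i.1 * q i.1 i.2) = 1 := by
    unfold N1
    have h2 : ∀ i : Ω × Fin (4 ^ J), |p i.1 * q i.1 i.2| = p i.1 * q i.1 i.2 := fun i =>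
      abs_of_nonneg (hx i)
    simp only [h2]
    rw [Fintype.sum_prod_type]
    simp only [← Finset.mul_sum, hq1, mul_one, h1]
  refine ⟨hN, ?_⟩
  have hlev : lev (I := Ω × Fin (4 ^ J)) J (fun i => p i.1) (fun i => p i.1 * q i.1 i.2)
      = (1 / (J : ℝ)) * ∑ i : Ω × Fin (4 ^ J), p i.1 *
        ∑ j ∈ range J, (if 4 ^ (j + 1) * q i.1 i.2 ≤ 1 then q i.1 i.2 else 0) := by
    unfold lev
    rw [hN, Finset.sum_comm]
    congr 1
    refine Finset.sum_congr rfl fun i _ => ?_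
    rw [Finset.mul_sum]
    refine Finset.sum_congr rfl fun j _ => ?_
    rw [abs_of_nonneg (hx i)]
    have hiff : (4 ^ (j + 1) * (p i.1 * q i.1 i.2) ≤ p i.1 * 1) ↔
        (4 ^ (j + 1) * q i.1 i.2 ≤ 1) := by
      rw [show (4 : ℝ) ^ (j + 1) * (p i.1 * q i.1 i.2) = p i.1 * (4 ^ (j + 1) * q i.1 i.2) by ring]
      exact mul_le_mul_iff_right₀ (hp i.1)
    by_cases hc : 4 ^ (j + 1) * q i.1 i.2 ≤ 1
    · rw [if_pos hc, if_pos (hiff.2 hc)]
    · rw [if_neg hc, if_neg (fun h => hc (hiff.1 h)), mul_zero]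
  have hin0 : ∀ i : Ω × Fin (4 ^ J), 0 ≤
      ∑ j ∈ range J, (if 4 ^ (j + 1) * q i.1 i.2 ≤ 1 then q i.1 i.2 else 0) := fun i =>
    Finset.sum_nonneg fun j _ => by
      split_ifs
      · exact hq _ _
      · exact le_refl _
  have hin : ∀ i : Ω × Fin (4 ^ J),
      ∑ j ∈ range J, (if 4 ^ (j + 1) * q i.1 i.2 ≤ 1 then q i.1 i.2 else 0)
        ≤ if q i.1 i.2 ≠ 0 then 1 / 4 else 0 := fun i => by
    by_cases h0 : q i.1 i.2 = 0
    · simp [h0]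
    · rw [if_pos h0]
      exact geo_count J _ (hq _ _)
  have hsum : ∑ i : Ω × Fin (4 ^ J), p i.1 *
        ∑ j ∈ range J, (if 4 ^ (j + 1) * q i.1 i.2 ≤ 1 then q i.1 i.2 else 0) ≤ B / 4 := by
    calc ∑ i : Ω × Fin (4 ^ J), p i.1 *
        ∑ j ∈ range J, (if 4 ^ (j + 1) * q i.1 i.2 ≤ 1 then q i.1 i.2 else 0)
        ≤ ∑ i : Ω × Fin (4 ^ J), p i.1 * (if q i.1 i.2 ≠ 0 then (1 / 4 : ℝ) else 0) :=
          Finset.sum_le_sum fun i _ => mul_le_mul_of_nonneg_left (hin i) (hp i.1).le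
      _ = ∑ ω, p ω * ∑ l, (if q ω l ≠ 0 then (1 / 4 : ℝ) else 0) := by
          rw [Fintype.sum_prod_type]
          simp only [Finset.mul_sum]
      _ = ∑ ω, p ω * (((univ.filter (fun l => q ω l ≠ 0)).card : ℝ) * (1 / 4)) := by
          refine Finset.sum_congr rfl fun ω _ => ?_
          rw [← Finset.sum_filter, Finset.sum_const, nsmul_eq_mul]
      _ ≤ ∑ ω, p ω * (B / 4) :=
          Finset.sum_le_sum fun ω _ => mul_le_mul_of_nonneg_left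
            (by have := hB ω; linarith) (hp ω).le
      _ = B / 4 := by rw [← Finset.sum_mul, h1, one_mul]
  have hsum0 : 0 ≤ ∑ i : Ω × Fin (4 ^ J), p i.1 *
        ∑ j ∈ range J, (if 4 ^ (j + 1) * q i.1 i.2 ≤ 1 then q i.1 i.2 else 0) :=
    Finset.sum_nonneg fun i _ => mul_nonneg (hp i.1).le (hin0 i)
  rw [hlev, abs_of_nonneg (mul_nonneg (by positivity) hsum0)]
  calc (1 / (J : ℝ)) * ∑ i : Ω × Fin (4 ^ J), p i.1 *
        ∑ j ∈ range J, (if 4 ^ (j + 1) * q i.1 i.2 ≤ 1 then q i.1 i.2 else 0)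
      ≤ (1 / (J : ℝ)) * (B / 4) := mul_le_mul_of_nonneg_left hsum (by positivity)
    _ = B / (4 * J) := by field_simp

end Pool.Agent.W_MP_68deb0_h42
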