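import Pool.Agent.W_MP_68deb0_h42.LevBasic
import Pool.Agent.W_MP_68deb0_h42.LevAvg
import Pool.Agent.W_MP_68deb0_h42.LevFew

set_option autoImplicit false

namespace Pool.Agent.W_MP_68deb0_h42

open Finset

variable {Ω : Type} [Fintype Ω]

/-- The level function on a leaf displacement of height `D`. -/
theorem lev_leaf (J : ℕ) (hJ : 0 < J) (p : Ω → ℝ) (hp : ∀ ω, 0 < p ω) (h1 : ∑ ω, p ω = 1)
    (B K D : ℝ) (q : Ω → Fin (4 ^ J) → ℝ) (hq : ∀ ω l, 0 ≤ q ω l) (hq1 : ∀ ω, ∑ l, q ω l = 1)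
    (hB : ∀ ω, ((univ.filter (fun l => q ω l ≠ 0)).card : ℝ) ≤ B)
    (hK : ∀ x y : Ω × Fin (4 ^ J) → ℝ,
      |lev J (fun i => p i.1) (x + y) - lev J (fun i => p i.1) x - lev J (fun i => p i.1) y|
        ≤ K * (N1 x + N1 y)) :
    |lev (I := Ω × Fin (4 ^ J)) J (fun i => p i.1)
        (fun i => p i.1 * (D * (1 / (4 ^ J : ℝ) - q i.1 i.2))) - D|
      ≤ |D| * (B / (4 * J) + 2 * K) := by
  obtain ⟨ha1, ha2⟩ := lev_avg J hJ p hp h1
  obtain ⟨hb1, hb2⟩ := lev_few J hJ p hp h1 B q hq hq1 hB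
  have hk := hK (fun i => p i.1 * (1 / (4 ^ J : ℝ))) (-fun i => p i.1 * q i.1 i.2)
  rw [N1_neg, ha1, hb1, ha2] at hk
  have e1 : (-fun i : Ω × Fin (4 ^ J) => p i.1 * q i.1 i.2) =
      (-1 : ℝ) • fun i : Ω × Fin (4 ^ J) => p i.1 * q i.1 i.2 := by
    rw [neg_one_smul]
  have e2 : lev (I := Ω × Fin (4 ^ J)) J (fun i => p i.1) (-fun i => p i.1 * q i.1 i.2) =
      -lev (I := Ω × Fin (4 ^ J)) J (fun i => p i.1) (fun i => p i.1 * q i.1 i.2) := by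
    rw [e1, lev_smul, neg_one_mul]
  rw [e2] at hk
  have e3 : (fun i : Ω × Fin (4 ^ J) => p i.1 * (D * (1 / (4 ^ J : ℝ) - q i.1 i.2))) =
      D • ((fun i => p i.1 * (1 / (4 ^ J : ℝ))) + -fun i => p i.1 * q i.1 i.2) := by
    funext i
    simp only [Pi.smul_apply, Pi.add_apply, Pi.neg_apply, smul_eq_mul]
    ring
  rw [e3, lev_smul]
  have h2 : ∀ L M : ℝ, |L - 1 - -M| ≤ K * (1 + 1) → |M| ≤ B / (4 * J) →
      |D * L - D| ≤ |D| * (B / (4 * J) + 2 * K) := by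
    intro L M h3 h4
    have h5 : D * L - D = D * (L - 1) := by ring
    rw [h5, abs_mul]
    refine mul_le_mul_of_nonneg_left ?_ (abs_nonneg D)
    have h6 : |L - 1| ≤ |L - 1 - -M| + |-M| := by
      have := abs_add_le (L - 1 - -M) (-M)
      rwa [sub_add_cancel] at this
    rw [abs_neg] at h6
    linarith
  exact h2 _ _ hk hb2

end Pool.Agent.W_MP_68deb0_h42
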