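import Pool.Agent.W_MP_68deb0_h42.Basic

set_option autoImplicit false

namespace Pool.Agent.W_MP_68deb0_h42

open Finset

theorem vari_jensen {Ξ : Type} [Fintype Ξ] (π : Ξ → ℝ) (hπ : ∀ ξ, 0 < π ξ)
    (h1 : ∑ ξ, π ξ = 1) (f : Ξ → ℝ) (hf : ∀ ξ, 0 ≤ f ξ) :
    ∑ ξ, π ξ * √(f ξ) ≤ √(∑ ξ, π ξ * f ξ) := by
  apply Real.le_sqrt_of_sq_le
  have h := Finset.sum_mul_sq_le_sq_mul_sq Finset.univ (fun ξ => √(π ξ))
    (fun ξ => √(π ξ) * √(f ξ))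
  have e1 : ∀ ξ, √(π ξ) * (√(π ξ) * √(f ξ)) = π ξ * √(f ξ) := by
    intro ξ
    rw [← mul_assoc, Real.mul_self_sqrt (hπ ξ).le]
  have e2 : ∀ ξ, √(π ξ) ^ 2 = π ξ := fun ξ => Real.sq_sqrt (hπ ξ).le
  have e3 : ∀ ξ, (√(π ξ) * √(f ξ)) ^ 2 = π ξ * f ξ := by
    intro ξ
    rw [mul_pow, Real.sq_sqrt (hπ ξ).le, Real.sq_sqrt (hf ξ)]
  simp only [e1, e2, e3] at h
  rwa [h1, one_mul] at h

theorem vari_cov {A Ξ : Type} [Fintype Ξ] (ρ : A → ℝ)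
    (π : Ξ → ℝ) (X : Ξ → A → ℝ) (h1 : ∑ ξ, π ξ = 1)
    (hE : ∀ a, ∑ ξ, π ξ * X ξ a = ρ a) (a b : A) :
    ∑ ξ, π ξ * ((ρ a - X ξ a) * (ρ b - X ξ b)) = ∑ ξ, π ξ * (X ξ a * X ξ b) - ρ a * ρ b := by
  have e : ∀ ξ, π ξ * ((ρ a - X ξ a) * (ρ b - X ξ b)) =
      ρ a * ρ b * π ξ - ρ a * (π ξ * X ξ b) - ρ b * (π ξ * X ξ a) + π ξ * (X ξ a * X ξ b) := by
    intro ξ
    ring
  simp only [e]
  rw [Finset.sum_add_distrib, Finset.sum_sub_distrib, Finset.sum_sub_distrib, ← Finset.mul_sum,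
    ← Finset.mul_sum, ← Finset.mul_sum, h1, hE, hE]
  ring

theorem vari_sqrt_add {x y : ℝ} (hx : 0 ≤ x) (hy : 0 ≤ y) : √(x + y) ≤ √x + √y := by
  apply Real.sqrt_le_iff.2
  refine ⟨add_nonneg (Real.sqrt_nonneg _) (Real.sqrt_nonneg _), ?_⟩
  have h1 := Real.sq_sqrt hx
  have h2 := Real.sq_sqrt hy
  have h3 := mul_nonneg (Real.sqrt_nonneg x) (Real.sqrt_nonneg y)
  nlinarith

theorem vari_sqrt_sum {A : Type} (s : Finset A) (f : A → ℝ) (hf : ∀ a, 0 ≤ f a) :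
    √(∑ a ∈ s, f a) ≤ ∑ a ∈ s, √(f a) := by
  classical
  induction s using Finset.induction_on with
  | empty => simp
  | insert a s ha ih =>
    rw [Finset.sum_insert ha, Finset.sum_insert ha]
    exact (vari_sqrt_add (hf a) (Finset.sum_nonneg fun b _ => hf b)).trans
      (add_le_add_right ih _)

/-- Small part: mean of the square root of the deviation of a sum of independent variables. -/
theorem small_part {A Ξ : Type} [Fintype A] [Fintype Ξ] (ρ : A → ℝ) (hρ : ∀ a, 0 < ρ a ∧ ρ a < 1)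
    (π : Ξ → ℝ) (X : Ξ → A → ℝ) (hπ : ∀ ξ, 0 < π ξ) (h1 : ∑ ξ, π ξ = 1)
    (hX : ∀ ξ a, X ξ a = 0 ∨ X ξ a = 1) (hE : ∀ a, ∑ ξ, π ξ * X ξ a = ρ a)
    (hI : ∀ a b, a ≠ b → ∑ ξ, π ξ * (X ξ a * X ξ b) = ρ a * ρ b)
    (c : A → ℝ) (s : Finset A) (V : ℝ) (hV : ∑ a ∈ s, c a ^ 2 * ρ a ≤ V) :
    ∑ ξ, π ξ * √|∑ a ∈ s, c a * ρ a - ∑ a ∈ s, c a * X ξ a| ≤ √√V := by
  classical
  have hZ : ∀ ξ, ∑ a ∈ s, c a * ρ a - ∑ a ∈ s, c a * X ξ a = ∑ a ∈ s, c a * (ρ a - X ξ a) := by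
    intro ξ
    rw [← Finset.sum_sub_distrib]
    exact Finset.sum_congr rfl fun a _ => by ring
  simp only [hZ]
  -- the variance
  have hvar : ∑ ξ, π ξ * (∑ a ∈ s, c a * (ρ a - X ξ a)) ^ 2 ≤ V := by
    refine le_trans (le_of_eq ?_) (le_trans (Finset.sum_le_sum
      (f := fun a => c a ^ 2 * (ρ a - ρ a * ρ a)) (g := fun a => c a ^ 2 * ρ a) (s := s) ?_) hV)
    · have e1 : ∀ ξ, π ξ * (∑ a ∈ s, c a * (ρ a - X ξ a)) ^ 2 =
          ∑ a ∈ s, ∑ b ∈ s, (c a * c b) * (π ξ * ((ρ a - X ξ a) * (ρ b - X ξ b))) := by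
        intro ξ
        rw [sq, Finset.sum_mul_sum, Finset.mul_sum]
        refine Finset.sum_congr rfl fun a _ => ?_
        rw [Finset.mul_sum]
        exact Finset.sum_congr rfl fun b _ => by ring
      simp only [e1]
      rw [Finset.sum_comm]
      refine Finset.sum_congr rfl fun a ha => ?_
      rw [Finset.sum_comm]
      have e2 : ∀ b, ∑ ξ, (c a * c b) * (π ξ * ((ρ a - X ξ a) * (ρ b - X ξ b))) =
          (c a * c b) * (∑ ξ, π ξ * (X ξ a * X ξ b) - ρ a * ρ b) := by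
        intro b
        rw [← Finset.mul_sum, vari_cov ρ π X h1 hE]
      simp only [e2]
      rw [Finset.sum_eq_single a]
      · have e3 : ∀ ξ, π ξ * (X ξ a * X ξ a) = π ξ * X ξ a := by
          intro ξ
          rcases hX ξ a with h | h <;> rw [h] <;> ring
        simp only [e3]
        rw [hE]
        ring
      · intro b _ hb
        rw [hI a b (Ne.symm hb), sub_self, mul_zero]
      · intro h
        exact absurd ha h
    · intro a _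
      have := mul_nonneg (sq_nonneg (c a)) (mul_nonneg (hρ a).1.le (hρ a).1.le)
      show c a ^ 2 * (ρ a - ρ a * ρ a) ≤ c a ^ 2 * ρ a
      nlinarith
  refine (vari_jensen π hπ h1 _ fun ξ => abs_nonneg _).trans (Real.sqrt_le_sqrt ?_)
  have e4 : ∀ ξ, |∑ a ∈ s, c a * (ρ a - X ξ a)| = √((∑ a ∈ s, c a * (ρ a - X ξ a)) ^ 2) :=
    fun ξ => (Real.sqrt_sq_eq_abs _).symm
  simp only [e4]
  exact (vari_jensen π hπ h1 _ fun ξ => sq_nonneg _).trans (Real.sqrt_le_sqrt hvar)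

/-- Big part: subadditivity of the square root. -/
theorem big_part {A Ξ : Type} [Fintype A] [Fintype Ξ] (ρ : A → ℝ)
    (π : Ξ → ℝ) (X : Ξ → A → ℝ) (hπ : ∀ ξ, 0 < π ξ)
    (hX : ∀ ξ a, X ξ a = 0 ∨ X ξ a = 1) (hE : ∀ a, ∑ ξ, π ξ * X ξ a = ρ a)
    (c : A → ℝ) (s : Finset A) :
    ∑ ξ, π ξ * √|∑ a ∈ s, c a * X ξ a| ≤ ∑ a ∈ s, √|c a| * ρ a := by
  have h1 : ∀ ξ, π ξ * √|∑ a ∈ s, c a * X ξ a| ≤ ∑ a ∈ s, √|c a| * (π ξ * X ξ a) := by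
    intro ξ
    have h2 : |∑ a ∈ s, c a * X ξ a| ≤ ∑ a ∈ s, |c a * X ξ a| := Finset.abs_sum_le_sum_abs _ _
    have h3 : √|∑ a ∈ s, c a * X ξ a| ≤ ∑ a ∈ s, √|c a * X ξ a| :=
      (Real.sqrt_le_sqrt h2).trans (vari_sqrt_sum s _ fun a => abs_nonneg _)
    have h4 : ∀ a, √|c a * X ξ a| = √|c a| * X ξ a := by
      intro a
      rcases hX ξ a with h | h <;> rw [h] <;> simp
    simp only [h4] at h3
    refine (mul_le_mul_of_nonneg_left h3 (hπ ξ).le).trans (le_of_eq ?_)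
    rw [Finset.mul_sum]
    exact Finset.sum_congr rfl fun a _ => by ring
  refine (Finset.sum_le_sum fun ξ _ => h1 ξ).trans (le_of_eq ?_)
  rw [Finset.sum_comm]
  refine Finset.sum_congr rfl fun a _ => ?_
  rw [← Finset.mul_sum, hE]

end Pool.Agent.W_MP_68deb0_h42
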