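import Pool.Agent.W_MP_68deb0_h42.Bern
import Pool.Agent.W_MP_68deb0_h42.Vari
import Pool.Agent.W_MP_68deb0_h42.Geo

set_option autoImplicit false

namespace Pool.Agent.W_MP_68deb0_h42

open Finset

theorem linR_sum {I : Type} [Fintype I] (J : ℕ) (P : I → ℕ → Prop)
    [∀ i, DecidablePred (P i)] (f : I → ℕ → ℝ) :
    ∑ a ∈ (univ : Finset (I × Fin J)).filter (fun a => P a.1 a.2), f a.1 a.2 =
      ∑ i, ∑ j ∈ (range J).filter (P i), f i j := by
  rw [Finset.sum_filter, Fintype.sum_prod_type]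
  refine Finset.sum_congr rfl fun i _ => ?_
  rw [Finset.sum_filter, Finset.sum_range]

theorem linR_cond {m x N : ℝ} (hm : 0 < m) (j : ℕ) :
    4 ^ (j + 1) * |x| ≤ m * N ↔ 4 ^ (j + 1) * (|x| / m) ≤ N := by
  rw [← mul_div_assoc, div_le_iff₀ hm, mul_comm N]

/-- Random linearization of the level function. -/
theorem exists_lin {I : Type} [Fintype I] (J : ℕ) (hJ : 0 < J) (μ : I → ℝ)
    (hμ : ∀ i, 0 < μ i ∧ μ i ≤ 1) :
    ∃ (Ξ : Type) (_ : Fintype Ξ) (π : Ξ → ℝ) (ζ : Ξ → I → ℝ), (∀ ξ, 0 < π ξ) ∧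
      ∑ ξ, π ξ = 1 ∧ Lin π (lev J μ) ζ (ef J) := by
  classical
  have hJ0 : (0 : ℝ) < J := by exact_mod_cast hJ
  have hJ1 : (1 : ℝ) ≤ J := by exact_mod_cast hJ
  have hδ0 : (0 : ℝ) < 1 / J := by positivity
  have hδ1 : (1 : ℝ) / J ≤ 1 := by
    rw [div_le_one hJ0]
    exact hJ1
  have h4 : ∀ j : ℕ, (4 : ℝ) ≤ 4 ^ (j + 1) := fun j => by
    have h := pow_le_pow_right₀ (show (1 : ℝ) ≤ 4 by norm_num) (show 1 ≤ j + 1 by omega)
    rwa [pow_one] at h
  have h40 : ∀ j : ℕ, (0 : ℝ) < 4 ^ (j + 1) := fun j => by positivity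
  set ρ : I × Fin J → ℝ := fun a => 1 / (J : ℝ) * μ a.1 / 4 ^ ((a.2 : ℕ) + 1) with hρdef
  have hρ : ∀ a, 0 < ρ a ∧ ρ a < 1 := by
    intro a
    have hm := (hμ a.1).1
    have hm1 := (hμ a.1).2
    refine ⟨by positivity, ?_⟩
    rw [hρdef]
    show 1 / (J : ℝ) * μ a.1 / 4 ^ ((a.2 : ℕ) + 1) < 1
    rw [div_lt_one (h40 _)]
    have h5 : 1 / (J : ℝ) * μ a.1 ≤ 1 * 1 := mul_le_mul hδ1 hm1 hm.le zero_le_one
    linarith [h4 (a.2 : ℕ)]
  obtain ⟨Ξ, hΞ, π, X, hπ, h1, hX, hE, hI⟩ := exists_bern ρ hρ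
  refine ⟨Ξ, hΞ, π, fun ξ i => ∑ j : Fin J, X ξ (i, j) * (4 ^ ((j : ℕ) + 1) / μ i), hπ, h1, ?_⟩
  intro x
  set N : ℝ := N1 x with hN
  have hN0 : 0 ≤ N := N1_nonneg x
  have hef : 0 ≤ ef J := by
    unfold ef
    positivity
  rcases hN0.eq_or_lt with h0 | hNpos
  · have hx : x = 0 := N1_eq_zero h0.symm
    have hl : lev J μ x = 0 := by
      rw [hx]
      unfold lev
      simp
    have h5 : ∀ ξ, π ξ * √|lev J μ x -
        dot (fun i => ∑ j : Fin J, X ξ (i, j) * (4 ^ ((j : ℕ) + 1) / μ i)) x| = 0 := by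
      intro ξ
      rw [hl, hx, dot_zero]
      simp
    rw [Finset.sum_congr rfl fun ξ _ => h5 ξ, Finset.sum_const_zero]
    positivity
  -- the coefficients
  set c : I × Fin J → ℝ := fun a => 4 ^ ((a.2 : ℕ) + 1) * x a.1 / μ a.1 with hc
  set P : I → ℕ → Prop := fun i j => 4 ^ (j + 1) * |x i| ≤ μ i * N with hP
  set s : Finset (I × Fin J) := univ.filter (fun a => P a.1 (a.2 : ℕ)) with hs
  set t : Finset (I × Fin J) := univ.filter (fun a => ¬ P a.1 (a.2 : ℕ)) with ht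
  have hcρ : ∀ a, c a * ρ a = 1 / (J : ℝ) * x a.1 := by
    intro a
    have hm := (hμ a.1).1
    have h6 := h40 (a.2 : ℕ)
    show 4 ^ ((a.2 : ℕ) + 1) * x a.1 / μ a.1 * (1 / (J : ℝ) * μ a.1 / 4 ^ ((a.2 : ℕ) + 1)) = _
    field_simp
  have hcabs : ∀ a, |c a| = 4 ^ ((a.2 : ℕ) + 1) * (|x a.1| / μ a.1) := by
    intro a
    have hm := (hμ a.1).1
    show |4 ^ ((a.2 : ℕ) + 1) * x a.1 / μ a.1| = _
    rw [abs_div, abs_mul, abs_of_pos (h40 _), abs_of_pos hm, mul_div_assoc]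
  have hcρabs : ∀ a, |c a| * ρ a = 1 / (J : ℝ) * |x a.1| := by
    intro a
    have h6 := congrArg abs (hcρ a)
    rw [abs_mul, abs_mul, abs_of_pos (hρ a).1, abs_of_pos hδ0] at h6
    exact h6
  have hlev : lev J μ x = ∑ a ∈ s, c a * ρ a := by
    rw [Finset.sum_congr rfl fun a _ => hcρ a, hs,
      linR_sum J P (fun i _ => 1 / (J : ℝ) * x i)]
    unfold lev
    rw [Finset.sum_comm, Finset.mul_sum]
    refine Finset.sum_congr rfl fun i _ => ?_
    rw [Finset.sum_filter, Finset.mul_sum]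
    refine Finset.sum_congr rfl fun j _ => ?_
    rw [mul_ite, mul_zero]
  have hdot : ∀ ξ, dot (fun i => ∑ j : Fin J, X ξ (i, j) * (4 ^ ((j : ℕ) + 1) / μ i)) x =
      ∑ a ∈ s, c a * X ξ a + ∑ a ∈ t, c a * X ξ a := by
    intro ξ
    rw [hs, ht, Finset.sum_filter_add_sum_filter_not, Fintype.sum_prod_type]
    unfold dot
    refine Finset.sum_congr rfl fun i _ => ?_
    rw [Finset.sum_mul]
    refine Finset.sum_congr rfl fun j _ => ?_
    show X ξ (i, j) * (4 ^ ((j : ℕ) + 1) / μ i) * x i =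
      4 ^ ((j : ℕ) + 1) * x i / μ i * X ξ (i, j)
    ring
  have hV : ∑ a ∈ s, c a ^ 2 * ρ a ≤ 2 / (J : ℝ) * N ^ 2 := by
    have h6 : ∀ a, c a ^ 2 * ρ a =
        (1 / (J : ℝ) * |x a.1|) * (4 ^ ((a.2 : ℕ) + 1) * (|x a.1| / μ a.1)) := by
      intro a
      rw [← sq_abs, sq, mul_assoc, hcρabs, hcabs]
      ring
    rw [Finset.sum_congr rfl fun a _ => h6 a, hs,
      linR_sum J P (fun i j => (1 / (J : ℝ) * |x i|) * (4 ^ (j + 1) * (|x i| / μ i)))]
    have h7 : ∀ i, ∑ j ∈ (range J).filter (P i),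
        (1 / (J : ℝ) * |x i|) * (4 ^ (j + 1) * (|x i| / μ i)) ≤
        (1 / (J : ℝ) * |x i|) * (4 / 3 * N) := by
      intro i
      rw [← Finset.mul_sum]
      refine mul_le_mul_of_nonneg_left ?_ (by positivity)
      have h8 : (range J).filter (P i) =
          (range J).filter (fun j => 4 ^ (j + 1) * (|x i| / μ i) ≤ N) := by
        refine Finset.filter_congr fun j _ => ?_
        exact linR_cond (hμ i).1 j
      rw [h8]
      exact geo_small J _ N (div_nonneg (abs_nonneg _) (hμ i).1.le) hN0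
    refine (Finset.sum_le_sum fun i _ => h7 i).trans ?_
    rw [← Finset.sum_mul, ← Finset.mul_sum]
    have h9 : ∑ i, |x i| = N := rfl
    rw [h9]
    have h10 : 0 ≤ 1 / (J : ℝ) * N ^ 2 := by positivity
    have h11 : 1 / (J : ℝ) * N * (4 / 3 * N) = 4 / 3 * (1 / (J : ℝ) * N ^ 2) := by ring
    have h12 : 2 / (J : ℝ) * N ^ 2 = 2 * (1 / (J : ℝ) * N ^ 2) := by ring
    rw [h11, h12]
    linarith
  have hsmall := small_part ρ hρ π X hπ h1 hX hE hI c s _ hV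
  have hbig := big_part ρ π X hπ hX hE c t
  have hsqrt : √√(2 / (J : ℝ) * N ^ 2) = √√(2 / (J : ℝ)) * √N := by
    rw [Real.sqrt_mul (by positivity), Real.sqrt_sq hN0, Real.sqrt_mul (Real.sqrt_nonneg _)]
  have hbig2 : ∑ a ∈ t, √|c a| * ρ a ≤ 2 / (J : ℝ) * √N := by
    have h6 : ∀ a ∈ t, √|c a| * ρ a =
        (1 / (J : ℝ) * |x a.1|) * (1 / √(4 ^ ((a.2 : ℕ) + 1) * (|x a.1| / μ a.1))) := by
      intro a ha
      have h7 : ¬ P a.1 (a.2 : ℕ) := (Finset.mem_filter.1 ha).2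
      have h8 : ¬ (4 ^ ((a.2 : ℕ) + 1) * (|x a.1| / μ a.1) ≤ N) := fun h =>
        h7 ((linR_cond (hμ a.1).1 _).2 h)
      rw [← hcabs] at h8 ⊢
      have h9 : 0 < |c a| := hNpos.trans (not_le.1 h8)
      have h10 : 0 < √|c a| := Real.sqrt_pos.2 h9
      rw [← hcρabs, mul_one_div, eq_div_iff h10.ne']
      have h11 := Real.mul_self_sqrt h9.le
      calc √|c a| * ρ a * √|c a| = (√|c a| * √|c a|) * ρ a := by ring
        _ = |c a| * ρ a := by rw [h11]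
    rw [Finset.sum_congr rfl h6, ht,
      linR_sum J (fun i j => ¬ P i j)
        (fun i j => (1 / (J : ℝ) * |x i|) * (1 / √(4 ^ (j + 1) * (|x i| / μ i))))]
    have h7 : ∀ i, ∑ j ∈ (range J).filter (fun j => ¬ P i j),
        (1 / (J : ℝ) * |x i|) * (1 / √(4 ^ (j + 1) * (|x i| / μ i))) ≤
        (1 / (J : ℝ) * |x i|) * (2 / √N) := by
      intro i
      rw [← Finset.mul_sum]
      refine mul_le_mul_of_nonneg_left ?_ (by positivity)
      have h8 : (range J).filter (fun j => ¬ P i j) =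
          (range J).filter (fun j => ¬ (4 ^ (j + 1) * (|x i| / μ i) ≤ N)) := by
        refine Finset.filter_congr fun j _ => ?_
        exact not_congr (linR_cond (hμ i).1 j)
      rw [h8]
      exact geo_big J _ N (div_nonneg (abs_nonneg _) (hμ i).1.le) hNpos
    refine (Finset.sum_le_sum fun i _ => h7 i).trans ?_
    rw [← Finset.sum_mul, ← Finset.mul_sum]
    have h9 : ∑ i, |x i| = N := rfl
    rw [h9]
    have h10 : 0 < √N := Real.sqrt_pos.2 hNpos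
    have h11 := Real.mul_self_sqrt hN0
    refine le_of_eq ?_
    rw [mul_div_assoc', div_eq_iff h10.ne']
    calc 1 / (J : ℝ) * N * 2 = 2 / (J : ℝ) * N := by ring
      _ = 2 / (J : ℝ) * (√N * √N) := by rw [h11]
      _ = 2 / (J : ℝ) * √N * √N := by ring
  have hterm : ∀ ξ, π ξ * √|lev J μ x -
      dot (fun i => ∑ j : Fin J, X ξ (i, j) * (4 ^ ((j : ℕ) + 1) / μ i)) x| ≤
      π ξ * √|∑ a ∈ s, c a * ρ a - ∑ a ∈ s, c a * X ξ a| + π ξ * √|∑ a ∈ t, c a * X ξ a| := by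
    intro ξ
    rw [hlev, hdot ξ, ← mul_add, ← sub_sub]
    refine mul_le_mul_of_nonneg_left ?_ (hπ ξ).le
    refine (Real.sqrt_le_sqrt (abs_sub _ _)).trans ?_
    exact vari_sqrt_add (abs_nonneg _) (abs_nonneg _)
  refine (Finset.sum_le_sum fun ξ _ => hterm ξ).trans ?_
  rw [Finset.sum_add_distrib]
  unfold ef
  rw [add_mul, ← hsqrt]
  exact add_le_add hsmall (hbig.trans hbig2)

end Pool.Agent.W_MP_68deb0_h42
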