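import Pool.Agent.W_MP_68deb0_h42.Basic

set_option autoImplicit false

namespace Pool.Agent.W_MP_68deb0_h42

theorem ef_pos (J : ℕ) (hJ : 0 < J) : 0 < ef J := by
  unfold ef
  have hJ' : (0 : ℝ) < J := by exact_mod_cast hJ
  positivity

theorem tendsto_ef : Filter.Tendsto (fun J : ℕ => ef J) Filter.atTop (nhds 0) := by
  unfold ef
  have h1 : Filter.Tendsto (fun J : ℕ => (2 : ℝ) / (J : ℝ)) Filter.atTop (nhds 0) :=
    tendsto_const_div_atTop_nhds_zero_nat 2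
  have h2 := ((Real.continuous_sqrt.tendsto _).comp ((Real.continuous_sqrt.tendsto _).comp h1)).add
    h1
  simpa [Function.comp_def] using h2

theorem exists_J (ε : ℝ) (hε : 0 < ε) : ∃ J : ℕ, 0 < J ∧ ef J ≤ ε / 2 ∧
    7 / 2 * (11 / (2 * (J : ℝ)) + 24 * (48 * ef J ^ 2)) + 4 * (48 * ef J ^ 2) ≤ ε / 2 := by
  have h1 : Filter.Tendsto (fun J : ℕ => (11 / 2 : ℝ) / (J : ℝ)) Filter.atTop (nhds 0) :=
    tendsto_const_div_atTop_nhds_zero_nat _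
  have h2 : Filter.Tendsto (fun J : ℕ => 7 / 2 * (11 / (2 * (J : ℝ)) + 24 * (48 * ef J ^ 2)) +
      4 * (48 * ef J ^ 2)) Filter.atTop (nhds 0) := by
    have h3 := ((h1.add (((tendsto_ef.pow 2).const_mul 48).const_mul 24)).const_mul (7 / 2)).add
      (((tendsto_ef.pow 2).const_mul 48).const_mul 4)
    have e : (7 / 2 * (0 + 24 * (48 * (0 : ℝ) ^ 2)) + 4 * (48 * 0 ^ 2)) = 0 := by norm_num
    rw [e] at h3
    refine h3.congr (fun J => ?_)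
    rw [div_div]
  have hε2 : 0 < ε / 2 := half_pos hε
  obtain ⟨J, hJ1, hJ2, hJ3⟩ := ((Filter.eventually_gt_atTop 0).and
    ((tendsto_ef.eventually (eventually_le_nhds hε2)).and
      (h2.eventually (eventually_le_nhds hε2)))).exists
  exact ⟨J, hJ1, hJ2, hJ3⟩

theorem exists_eps (ε m K : ℝ) (hε : 0 < ε) (hm : 0 ≤ m) (hK : 0 ≤ K) : ∃ ε₀ : ℝ, 0 < ε₀ ∧
    ε₀ ≤ 1 ∧ √2 * ε₀ ≤ ε / 2 ∧ (1 + 2 * √(2 * m)) * ε₀ ≤ ε ∧
    ε₀ + 6 * √(2 * m) * (5 + 8 * K) * ε₀ ≤ ε / 2 := by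
  have hs : 0 ≤ √(2 * m) := Real.sqrt_nonneg _
  have hs2 : 0 ≤ √2 := Real.sqrt_nonneg _
  have hq : 0 ≤ 6 * √(2 * m) * (5 + 8 * K) := by positivity
  set C : ℝ := 2 * (1 + √2 + 2 * √(2 * m) + 6 * √(2 * m) * (5 + 8 * K)) with hC
  have hC0 : 0 < C := by rw [hC]; linarith
  have hd : 0 < ε / C := div_pos hε hC0
  refine ⟨min 1 (ε / C), lt_min one_pos hd, min_le_left _ _, ?_, ?_, ?_⟩
  all_goals
    have h1 : min 1 (ε / C) ≤ ε / C := min_le_right _ _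
    have h0 : 0 < min 1 (ε / C) := lt_min one_pos hd
    have h2 : C * min 1 (ε / C) ≤ ε := by
      calc C * min 1 (ε / C) ≤ C * (ε / C) := mul_le_mul_of_nonneg_left h1 hC0.le
        _ = ε := mul_div_cancel₀ _ hC0.ne'
    have h3 : 0 ≤ √2 * min 1 (ε / C) := mul_nonneg hs2 h0.le
    have h4 : 0 ≤ √(2 * m) * min 1 (ε / C) := mul_nonneg hs h0.le
    have h5 : 0 ≤ 6 * √(2 * m) * (5 + 8 * K) * min 1 (ε / C) := mul_nonneg hq h0.le
    rw [hC] at h2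
    generalize min 1 (ε / C) = x at *
    nlinarith
end Pool.Agent.W_MP_68deb0_h42
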