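import Pool.Agent.W_MP_68deb0_h42.StepCore
import Pool.Agent.W_MP_68deb0_h42.Disp
import Pool.Agent.W_MP_68deb0_h42.GamL

set_option autoImplicit false

namespace Pool.Agent.W_MP_68deb0_h42

open Finset

variable {ι Ω : Type} [Fintype ι] [Fintype Ω]

/-- The lower estimate passes to the next stage. -/
theorem step_down (n J : ℕ) (hJ : 0 < J) {p : Ω → ℝ} {F : (ι → ℝ) → ℝ} {lam : Ω → ι → ℝ}
    {ε₀ ε K : ℝ} (hp : ∀ ω, 0 < p ω) (h1 : ∑ ω, p ω = 1) (hε₀ : 0 < ε₀) (hε₁ : ε₀ ≤ 1)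
    (h : Lin p F lam ε₀) (H : Helix (4 ^ J)) (G : ℝ → (ι → ℝ) ≃ (ι → ℝ))
    (down : ∀ (t t' : ℝ) (v v' : ι → ℝ),
      N1 (G t v - G t' v') + |t - t'| / 2 ^ n ≤ 1 →
      N1 (v - v') + 4 * |t - t' - F (v - v')| ≤
        6 * (N1 (G t v - G t' v') + |t - t'| / 2 ^ n) +
        ε₀ * Gam n (N1 (G t v - G t' v') + |t - t'| / 2 ^ n))
    (hK0 : 0 ≤ K)
    (hK : ∀ x y : Ω × Fin (4 ^ J) → ℝ,
      |lev J (fun i => p i.1) (x + y) - lev J (fun i => p i.1) x - lev J (fun i => p i.1) y|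
        ≤ K * (N1 x + N1 y))
    (hε : ε₀ + 6 * √(2 * (4 ^ J : ℝ)) * (5 + 8 * K) * ε₀ + 7 / 2 * (11 / (2 * J) + 24 * K) + 4 * K
      ≤ ε)
    (t t' : ℝ) (v v' : ι ⊕ (Ω × Fin (4 ^ J)) → ℝ)
    (hs : N1 (stepG p lam H G t v - stepG p lam H G t' v') + |t - t'| / 2 ^ (n + 1) ≤ 1) :
    N1 (v - v') + 4 * |t - t' - stepF J p F (v - v')| ≤
      6 * (N1 (stepG p lam H G t v - stepG p lam H G t' v') + |t - t'| / 2 ^ (n + 1)) +
      ε * Gam (n + 1)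
        (N1 (stepG p lam H G t v - stepG p lam H G t' v') + |t - t'| / 2 ^ (n + 1)) := by
  have hJ' : (0 : ℝ) < J := by exact_mod_cast hJ
  rw [N1_stepG_sub] at hs ⊢
  obtain ⟨u, hu⟩ : ∃ u : ι → ℝ, u = v ∘ Sum.inl - v' ∘ Sum.inl := ⟨_, rfl⟩
  obtain ⟨y, hy⟩ : ∃ y : Ω × Fin (4 ^ J) → ℝ, y = v ∘ Sum.inr - v' ∘ Sum.inr := ⟨_, rfl⟩
  have hu' : (v - v') ∘ Sum.inl = u := by rw [hu]; rfl
  have hy' : (v - v') ∘ Sum.inr = y := by rw [hy]; rfl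
  obtain ⟨D, hD⟩ : ∃ D : ℝ, D = t - t' - 2 * F u := ⟨_, rfl⟩
  -- the displacement
  obtain ⟨q, w, hq, hq1, hB, hsplit, hw0, hw⟩ := disp_split H p hp h1
    (phase lam t (v ∘ Sum.inl)) (phase lam t' (v' ∘ Sum.inl)) (fun ω => F u - dot (lam ω) u) D (by
      intro ω
      have h3 : dot (lam ω) u = dot (lam ω) (v ∘ Sum.inl) - dot (lam ω) (v' ∘ Sum.inl) := by
        rw [hu, dot_sub]
      simp only [phase]
      rw [h3, hD]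
      ring)
  have hm : ((4 ^ J : ℕ) : ℝ) = (4 : ℝ) ^ J := by push_cast; rfl
  rw [hm] at hsplit hw0 hw
  rw [← hy, hsplit] at hs ⊢
  obtain ⟨w0, hw0e⟩ : ∃ w0 : Ω × Fin (4 ^ J) → ℝ,
    w0 = fun i : Ω × Fin (4 ^ J) => p i.1 * (D * (1 / (4 ^ J : ℝ) - q i.1 i.2)) := ⟨_, rfl⟩
  have core := step_down_core J hJ hp h1 hK0 hK D q hq hq1 hB (y - (w0 + w)) w hw0
  rw [← hw0e] at core hs ⊢
  rw [sub_add_cancel] at core
  obtain ⟨b, hb⟩ : ∃ b : Ω × Fin (4 ^ J) → ℝ, b = y - (w0 + w) := ⟨_, rfl⟩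
  rw [← hb] at core hs ⊢
  -- the estimate of the error
  have hw' : N1 w ≤ 2 * √(2 * 4 ^ J) * (ε₀ * √(N1 u)) :=
    hw.trans (mul_le_mul_of_nonneg_left (h u) (by positivity))
  -- the estimate of the stage before
  obtain ⟨a, ha⟩ : ∃ a : ℝ, a = N1 (G (t / 2) (v ∘ Sum.inl) - G (t' / 2) (v' ∘ Sum.inl)) :=
    ⟨_, rfl⟩
  have ha0 : 0 ≤ a := by rw [ha]; exact N1_nonneg _
  have hdn := down (t / 2) (t' / 2) (v ∘ Sum.inl) (v' ∘ Sum.inl)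
  have e1 : |t / 2 - t' / 2| / 2 ^ n = |t - t'| / 2 ^ (n + 1) := by
    rw [← sub_div, abs_div, abs_of_pos (by norm_num : (0 : ℝ) < 2), pow_succ]
    field_simp
  have e2 : 4 * |t / 2 - t' / 2 - F u| = 2 * |D| := by
    have e3 : t / 2 - t' / 2 - F u = D / 2 := by rw [hD]; ring
    rw [e3, abs_div, abs_of_pos (by norm_num : (0 : ℝ) < 2)]
    ring
  rw [← hu, ← ha, e1, e2] at hdn
  rw [← ha] at hs ⊢
  have hb0 := N1_nonneg b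
  have hτ : 0 ≤ |t - t'| / 2 ^ (n + 1) := by positivity
  obtain ⟨s, hsd⟩ : ∃ s : ℝ, s = a + |t - t'| / 2 ^ (n + 1) := ⟨_, rfl⟩
  obtain ⟨s', hsd'⟩ : ∃ s' : ℝ, s' = a + N1 b + |t - t'| / 2 ^ (n + 1) := ⟨_, rfl⟩
  have hss : s' = s + N1 b := by rw [hsd, hsd']; ring
  rw [← hsd'] at hs ⊢
  rw [← hsd] at hdn
  have hs0 : 0 ≤ s := by rw [hsd]; positivity
  have hs0' : 0 ≤ s' := by rw [hss]; positivity
  have hs1 : s ≤ 1 := by linarith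
  have hdn' := hdn hs1
  have g0 := Gam_nonneg n s hs0
  have g1 := Gam_le_one n s hs0 hs1
  have g2 := le_Gam n s hs0 hs1
  have g3 := Gam_le_succ n s hs0 hs1
  have g4 := Gam_mono (n + 1) s s' hs0 (by linarith)
  have g5 := le_Gam (n + 1) s' hs0' hs
  obtain ⟨g, hg⟩ : ∃ g : ℝ, g = Gam n s := ⟨_, rfl⟩
  obtain ⟨Γ, hΓ⟩ : ∃ Γ : ℝ, Γ = Gam (n + 1) s' := ⟨_, rfl⟩
  rw [← hΓ] at g4 g5 ⊢
  rw [← hg] at g0 g1 g2 g3 hdn'
  have hgs : √g ≤ Γ := by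
    have : √g = Gam (n + 1) s := by rw [hg]; rfl
    rw [this]
    exact g4
  have hgΓ : g ≤ Γ := g3.trans g4
  have hΓ0 : 0 ≤ Γ := g0.trans hgΓ
  have hu0 := N1_nonneg u
  have hD0 := abs_nonneg D
  have hεg : ε₀ * g ≤ g := mul_le_of_le_one_left g0 hε₁
  have hεΓ : ε₀ * g ≤ ε₀ * Γ := mul_le_mul_of_nonneg_left hgΓ hε₀.le
  have hD7 : |D| ≤ 7 / 2 * g := by linarith
  have hD11 : |D| + 2 ≤ 11 / 2 := by linarith
  have hu7 : N1 u ≤ 7 * g := by linarith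
  have hsu : √(N1 u) ≤ 3 * Γ := by
    have h3 : √(N1 u) ≤ 3 * √g := by
      rw [Real.sqrt_le_left (by positivity), mul_pow, Real.sq_sqrt g0]
      linarith
    linarith
  have hw3 : N1 w ≤ 6 * √(2 * 4 ^ J) * ε₀ * Γ := by
    refine hw'.trans ?_
    have h3 : 2 * √(2 * 4 ^ J) * (ε₀ * √(N1 u)) ≤ 2 * √(2 * 4 ^ J) * (ε₀ * (3 * Γ)) :=
      mul_le_mul_of_nonneg_left (mul_le_mul_of_nonneg_left hsu hε₀.le) (by positivity)
    refine h3.trans (le_of_eq ?_)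
    ring
  have hw4 : (5 + 8 * K) * N1 w ≤ (5 + 8 * K) * (6 * √(2 * 4 ^ J) * ε₀ * Γ) :=
    mul_le_mul_of_nonneg_left hw3 (by positivity)
  have hdiv : (|D| + 2) / J ≤ 11 / (2 * J) := by
    rw [div_le_div_iff₀ hJ' (by positivity)]
    nlinarith
  have hD5 : |D| * ((|D| + 2) / J + 24 * K) ≤ 7 / 2 * Γ * (11 / (2 * J) + 24 * K) := by
    refine mul_le_mul (by linarith) (by linarith) (by positivity) (by positivity)
  have hKb : 4 * K * N1 b ≤ 4 * K * Γ :=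
    mul_le_mul_of_nonneg_left (by linarith) (by positivity)
  have hfin : (ε₀ + 6 * √(2 * (4 ^ J : ℝ)) * (5 + 8 * K) * ε₀ + 7 / 2 * (11 / (2 * J) + 24 * K)
      + 4 * K) * Γ ≤ ε * Γ := mul_le_mul_of_nonneg_right hε hΓ0
  have hN : N1 (v - v') = N1 u + N1 y := by rw [N1_sum, hu', hy']
  have hF : t - t' - stepF J p F (v - v') = D - lev J (fun i => p i.1) y := by
    unfold stepF
    rw [hu', hy', hD]
    ring
  rw [hN, hF]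
  have hexp : (ε₀ + 6 * √(2 * (4 ^ J : ℝ)) * (5 + 8 * K) * ε₀ + 7 / 2 * (11 / (2 * J) + 24 * K)
      + 4 * K) * Γ = ε₀ * Γ + (5 + 8 * K) * (6 * √(2 * 4 ^ J) * ε₀ * Γ)
      + 7 / 2 * Γ * (11 / (2 * J) + 24 * K) + 4 * K * Γ := by ring
  rw [hexp] at hfin
  linarith

end Pool.Agent.W_MP_68deb0_h42
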