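import Pool.Agent.W_MP_68deb0_h42.StepDef

set_option autoImplicit false

namespace Pool.Agent.W_MP_68deb0_h42

open Finset

variable {ι Ω Ξ : Type} [Fintype ι] [Fintype Ω] [Fintype Ξ]

theorem stepLin_sqrt_abs (a b : ℝ) : √|2 * a + b| ≤ √2 * √|a| + √|b| := by
  rw [Real.sqrt_le_left (by positivity)]
  have h1 : (√2 * √|a| + √|b|) ^ 2 = 2 * |a| + |b| + 2 * (√2 * √|a| * √|b|) := by
    have e1 : √|a| ^ 2 = |a| := Real.sq_sqrt (abs_nonneg a)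
    have e2 : √|b| ^ 2 = |b| := Real.sq_sqrt (abs_nonneg b)
    have e3 : (√2 : ℝ) ^ 2 = 2 := Real.sq_sqrt (by norm_num)
    calc (√2 * √|a| + √|b|) ^ 2 = √2 ^ 2 * √|a| ^ 2 + √|b| ^ 2 + 2 * (√2 * √|a| * √|b|) := by ring
      _ = _ := by rw [e1, e2, e3]
  rw [h1]
  have h2 : |2 * a + b| ≤ 2 * |a| + |b| := by
    refine (abs_add_le _ _).trans (le_of_eq ?_)
    rw [abs_mul, abs_of_pos (by norm_num : (0 : ℝ) < 2)]
  have h3 : 0 ≤ 2 * (√2 * √|a| * √|b|) := by positivity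
  linarith

theorem stepLin_smul_dot (a v : ι → ℝ) : dot (2 • a) v = 2 * dot a v := by
  have : (2 • a : ι → ℝ) = (2 : ℝ) • a := by
    funext i
    simp [two_smul, two_mul]
  rw [this, smul_dot]

/-- The linearization of the next stage (product of the two probability spaces). -/
theorem step_lin (J : ℕ) {p : Ω → ℝ} {F : (ι → ℝ) → ℝ} {lam : Ω → ι → ℝ} {ε₀ ε₁ ε : ℝ}
    (hp : ∀ ω, 0 < p ω) (h1 : ∑ ω, p ω = 1) (hε₀ : 0 < ε₀) (hε₁ : 0 < ε₁) (h : Lin p F lam ε₀)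
    {π : Ξ → ℝ} {ζ : Ξ → Ω × Fin (4 ^ J) → ℝ} (hπ : ∀ ξ, 0 < π ξ) (hπ1 : ∑ ξ, π ξ = 1)
    (hζ : Lin π (lev J (fun i : Ω × Fin (4 ^ J) => p i.1)) ζ ε₁)
    (hε : √2 * ε₀ + ε₁ ≤ ε) :
    Lin (fun x : Ω × Ξ => p x.1 * π x.2) (stepF J p F)
      (fun x : Ω × Ξ => Sum.elim (2 • lam x.1) (ζ x.2)) ε := by
  intro v
  set A : Ω → ℝ := fun ω => √|F (v ∘ Sum.inl) - dot (lam ω) (v ∘ Sum.inl)| with hA
  set B : Ξ → ℝ := fun ξ => √|lev J (fun i : Ω × Fin (4 ^ J) => p i.1) (v ∘ Sum.inr) -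
    dot (ζ ξ) (v ∘ Sum.inr)| with hB
  have key : ∀ x : Ω × Ξ, √|stepF J p F v - dot (Sum.elim (2 • lam x.1) (ζ x.2)) v| ≤
      √2 * A x.1 + B x.2 := by
    intro x
    have e : stepF J p F v - dot (Sum.elim (2 • lam x.1) (ζ x.2)) v =
        2 * (F (v ∘ Sum.inl) - dot (lam x.1) (v ∘ Sum.inl)) +
          (lev J (fun i : Ω × Fin (4 ^ J) => p i.1) (v ∘ Sum.inr) -
            dot (ζ x.2) (v ∘ Sum.inr)) := by
      rw [dot_sum, Sum.elim_comp_inl, Sum.elim_comp_inr, stepLin_smul_dot]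
      unfold stepF
      ring
    rw [e]
    exact stepLin_sqrt_abs _ _
  have hsA : ∑ ω, p ω * A ω ≤ ε₀ * √(N1 (v ∘ Sum.inl)) := h (v ∘ Sum.inl)
  have hsB : ∑ ξ, π ξ * B ξ ≤ ε₁ * √(N1 (v ∘ Sum.inr)) := hζ (v ∘ Sum.inr)
  have hN : N1 v = N1 (v ∘ Sum.inl) + N1 (v ∘ Sum.inr) := N1_sum v
  have hn1 := N1_nonneg (v ∘ Sum.inl)
  have hn2 := N1_nonneg (v ∘ Sum.inr)
  have hq1 : √(N1 (v ∘ Sum.inl)) ≤ √(N1 v) := Real.sqrt_le_sqrt (by linarith)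
  have hq2 : √(N1 (v ∘ Sum.inr)) ≤ √(N1 v) := Real.sqrt_le_sqrt (by linarith)
  calc ∑ x : Ω × Ξ, p x.1 * π x.2 * √|stepF J p F v - dot (Sum.elim (2 • lam x.1) (ζ x.2)) v|
      ≤ ∑ x : Ω × Ξ, p x.1 * π x.2 * (√2 * A x.1 + B x.2) :=
        Finset.sum_le_sum fun x _ =>
          mul_le_mul_of_nonneg_left (key x) (mul_pos (hp _) (hπ _)).le
    _ = √2 * ((∑ ω, p ω * A ω) * ∑ ξ, π ξ) + (∑ ω, p ω) * ∑ ξ, π ξ * B ξ := by
        rw [Fintype.sum_prod_type, Finset.sum_mul_sum, Finset.sum_mul_sum, Finset.mul_sum,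
          ← Finset.sum_add_distrib]
        refine Finset.sum_congr rfl fun ω _ => ?_
        rw [Finset.mul_sum, ← Finset.sum_add_distrib]
        refine Finset.sum_congr rfl fun ξ _ => ?_
        ring
    _ = √2 * (∑ ω, p ω * A ω) + ∑ ξ, π ξ * B ξ := by rw [h1, hπ1, mul_one, one_mul]
    _ ≤ √2 * (ε₀ * √(N1 v)) + ε₁ * √(N1 v) := by
        refine add_le_add (mul_le_mul_of_nonneg_left ?_ (Real.sqrt_nonneg 2)) ?_
        · exact hsA.trans (mul_le_mul_of_nonneg_left hq1 hε₀.le)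
        · exact hsB.trans (mul_le_mul_of_nonneg_left hq2 hε₁.le)
    _ = (√2 * ε₀ + ε₁) * √(N1 v) := by ring
    _ ≤ ε * √(N1 v) := mul_le_mul_of_nonneg_right hε (Real.sqrt_nonneg _)

end Pool.Agent.W_MP_68deb0_h42
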