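import Pool.Agent.W_MP_68deb0_h42.StepDef
import Pool.Agent.W_MP_68deb0_h42.Disp
import Pool.Agent.W_MP_68deb0_h42.LevBasic

set_option autoImplicit false

namespace Pool.Agent.W_MP_68deb0_h42

open Finset

variable {ι Ω : Type} [Fintype ι] [Fintype Ω]

/-- The upper estimate passes to the next stage. -/
theorem step_up (J : ℕ) {p : Ω → ℝ} {F : (ι → ℝ) → ℝ} {lam : Ω → ι → ℝ} {ε₀ ε : ℝ}
    (hp : ∀ ω, 0 < p ω) (h1 : ∑ ω, p ω = 1) (hε₀ : 0 < ε₀) (h : Lin p F lam ε₀)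
    (H : Helix (4 ^ J)) (G : ℝ → (ι → ℝ) ≃ (ι → ℝ))
    (up : ∀ (t t' : ℝ) (v v' : ι → ℝ),
      N1 (G t v - G t' v') ≤ 5 * N1 (v - v') + 4 * |t - t' - F (v - v')| +
        ε₀ * √(N1 (v - v') + |t - t' - F (v - v')|))
    (hε : (1 + 2 * √(2 * (4 ^ J : ℝ))) * ε₀ ≤ ε)
    (t t' : ℝ) (v v' : ι ⊕ (Ω × Fin (4 ^ J)) → ℝ) :
    N1 (stepG p lam H G t v - stepG p lam H G t' v') ≤
      5 * N1 (v - v') + 4 * |t - t' - stepF J p F (v - v')| +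
        ε * √(N1 (v - v') + |t - t' - stepF J p F (v - v')|) := by
  obtain ⟨u, hu⟩ : ∃ u : ι → ℝ, u = v ∘ Sum.inl - v' ∘ Sum.inl := ⟨_, rfl⟩
  obtain ⟨y, hy⟩ : ∃ y : Ω × Fin (4 ^ J) → ℝ, y = v ∘ Sum.inr - v' ∘ Sum.inr := ⟨_, rfl⟩
  have hvu : (v - v') ∘ Sum.inl = u := by
    rw [hu]
    rfl
  have hvy : (v - v') ∘ Sum.inr = y := by
    rw [hy]
    rfl
  have hN : N1 (v - v') = N1 u + N1 y := by
    rw [N1_sum, hvu, hvy]
  have hF : stepF J p F (v - v') = 2 * F u + lev J (fun i => p i.1) y := by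
    unfold stepF
    rw [hvu, hvy]
  obtain ⟨D, hD⟩ : ∃ D : ℝ, D = t - t' - 2 * F u := ⟨_, rfl⟩
  obtain ⟨T, hT⟩ : ∃ T : ℝ, T = |t - t' - stepF J p F (v - v')| := ⟨_, rfl⟩
  have hT0 : 0 ≤ T := by
    rw [hT]
    exact abs_nonneg _
  have hu0 := N1_nonneg u
  have hy0 := N1_nonneg y
  have hDT : |D| ≤ T + N1 y := by
    have h2 : D = (t - t' - stepF J p F (v - v')) + lev J (fun i => p i.1) y := by
      rw [hD, hF]
      ring
    rw [h2, hT]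
    exact (abs_add_le _ _).trans (by gcongr; exact lev_le J _ y)
  have hA : N1 (G (t / 2) (v ∘ Sum.inl) - G (t' / 2) (v' ∘ Sum.inl)) ≤
      5 * N1 u + 2 * |D| + ε₀ * √(N1 u + |D| / 2) := by
    have h2 := up (t / 2) (t' / 2) (v ∘ Sum.inl) (v' ∘ Sum.inl)
    rw [← hu] at h2
    have h3 : |t / 2 - t' / 2 - F u| = |D| / 2 := by
      have h4 : t / 2 - t' / 2 - F u = D / 2 := by
        rw [hD]
        ring
      rw [h4, abs_div, abs_two]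
    rw [h3] at h2
    linarith
  obtain ⟨q, w, -, -, -, hsplit, hn1, hn2⟩ := disp_split H p hp h1
    (phase lam t (v ∘ Sum.inl)) (phase lam t' (v' ∘ Sum.inl))
    (fun ω => F u - dot (lam ω) u) D (fun ω => by
      unfold phase
      rw [hD, hu, dot_sub]
      ring)
  have hm : ((4 ^ J : ℕ) : ℝ) = (4 : ℝ) ^ J := by push_cast; ring
  rw [hm] at hn2
  have hlin := h u
  have hs0 : 0 ≤ √(2 * (4 : ℝ) ^ J) := Real.sqrt_nonneg _
  have hw : N1 w ≤ 2 * √(2 * (4 : ℝ) ^ J) * (ε₀ * √(N1 u)) :=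
    hn2.trans (mul_le_mul_of_nonneg_left hlin (by positivity))
  have hB : N1 ((v ∘ Sum.inr - v' ∘ Sum.inr) -
        (disp p H (phase lam t (v ∘ Sum.inl)) - disp p H (phase lam t' (v' ∘ Sum.inl)))) ≤
      N1 y + (2 * |D| + 2 * √(2 * (4 : ℝ) ^ J) * (ε₀ * √(N1 u))) := by
    refine (N1_sub_le _ _).trans ?_
    rw [← hy, hsplit]
    refine add_le_add le_rfl ((N1_add_le _ _).trans (add_le_add ?_ hw))
    exact hn1
  obtain ⟨R, hR⟩ : ∃ R : ℝ, R = √(N1 u + N1 y + T) := ⟨_, rfl⟩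
  have hR0 : 0 ≤ R := by
    rw [hR]
    exact Real.sqrt_nonneg _
  have hR1 : √(N1 u + |D| / 2) ≤ R := by
    rw [hR]
    exact Real.sqrt_le_sqrt (by linarith)
  have hR2 : √(N1 u) ≤ R := by
    rw [hR]
    exact Real.sqrt_le_sqrt (by linarith)
  rw [N1_stepG_sub, hN, ← hT, ← hR]
  have h3 : ε₀ * √(N1 u + |D| / 2) ≤ ε₀ * R := mul_le_mul_of_nonneg_left hR1 hε₀.le
  have h4 : 2 * √(2 * (4 : ℝ) ^ J) * (ε₀ * √(N1 u)) ≤ 2 * √(2 * (4 : ℝ) ^ J) * (ε₀ * R) :=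
    mul_le_mul_of_nonneg_left (mul_le_mul_of_nonneg_left hR2 hε₀.le) (by positivity)
  have h5 : (1 + 2 * √(2 * (4 : ℝ) ^ J)) * ε₀ * R ≤ ε * R := mul_le_mul_of_nonneg_right hε hR0
  have h6 : (1 + 2 * √(2 * (4 : ℝ) ^ J)) * ε₀ * R =
      ε₀ * R + 2 * √(2 * (4 : ℝ) ^ J) * (ε₀ * R) := by ring
  linarith

end Pool.Agent.W_MP_68deb0_h42
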