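import Pool.Agent.W_MP_68deb0_h42.HelixEx
import Pool.Agent.W_MP_68deb0_h42.LinR
import Pool.Agent.W_MP_68deb0_h42.Defect
import Pool.Agent.W_MP_68deb0_h42.StepLin
import Pool.Agent.W_MP_68deb0_h42.StepUp
import Pool.Agent.W_MP_68deb0_h42.StepDown
import Pool.Agent.W_MP_68deb0_h42.Params

set_option autoImplicit false

namespace Pool.Agent.W_MP_68deb0_h42

open Finset

/-- The trivial stage. -/
theorem stage_zero (ε : ℝ) (hε : 0 < ε) : Nonempty (Stage 0 ε) := by
  refine ⟨{ ι := Empty, Ω := Unit, p := fun _ => 1, p_pos := fun _ => one_pos,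
            p_sum := by simp, F := fun _ => 0, lam := fun _ => 0, G := fun _ => Equiv.refl _,
            F_smul := by simp, F_le := ?_, lin := ?_, up := ?_, down := ?_,
            G_zero := rfl, nonconvex := fun h => absurd rfl h }⟩
  · intro v
    simpa using N1_nonneg v
  · intro v
    simp [dot, N1]
  · intro t t' v v'
    have h0 : N1 (v - v') = 0 := by simp [N1]
    simp only [Equiv.refl_apply]
    rw [h0]
    have h1 : 0 ≤ |t - t' - 0| := abs_nonneg _
    have h2 : 0 ≤ ε * √(0 + |t - t' - 0|) := by positivity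
    linarith
  · intro t t' v v' _
    have h0 : N1 (v - v') = 0 := by simp [N1]
    simp only [Equiv.refl_apply, Gam]
    rw [h0]
    have h1 : 0 ≤ |t - t'| := abs_nonneg _
    have h2 : 0 ≤ ε * (0 + |t - t'| / 2 ^ 0) := by positivity
    simp only [sub_zero, pow_zero, div_one] at *
    nlinarith

/-- One more level. -/
theorem stage_succ (n : ℕ) (h : ∀ ε : ℝ, 0 < ε → Nonempty (Stage n ε)) (ε : ℝ) (hε : 0 < ε) :
    Nonempty (Stage (n + 1) ε) := by
  obtain ⟨J, hJ, hJ1, hJ2⟩ := exists_J ε hε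
  have hef : 0 < ef J := ef_pos J hJ
  set K : ℝ := 48 * ef J ^ 2 with hKdef
  have hK0 : 0 ≤ K := by positivity
  obtain ⟨ε₀, hε₀, hε₀1, he1, he2, he3⟩ := exists_eps ε (4 ^ J : ℝ) K hε (by positivity) hK0
  obtain ⟨S⟩ := h ε₀ hε₀
  obtain ⟨H⟩ := exists_helix (4 ^ J) (by positivity)
  have hp1 : ∀ ω, S.p ω ≤ 1 := fun ω => by
    rw [← S.p_sum]
    exact Finset.single_le_sum (f := S.p) (fun i _ => (S.p_pos i).le) (Finset.mem_univ ω)
  obtain ⟨Ξ, fΞ, π, ζ, hπ, hπ1, hζ⟩ := exists_lin (I := S.Ω × Fin (4 ^ J)) J hJ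
    (fun i => S.p i.1) (fun i => ⟨S.p_pos i.1, hp1 i.1⟩)
  have hK : ∀ x y : S.Ω × Fin (4 ^ J) → ℝ,
      |lev J (fun i => S.p i.1) (x + y) - lev J (fun i => S.p i.1) x
        - lev J (fun i => S.p i.1) y| ≤ K * (N1 x + N1 y) :=
    fun x y => hζ.defect hπ hπ1 hef x y
  refine ⟨{ ι := S.ι ⊕ (S.Ω × Fin (4 ^ J)), Ω := S.Ω × Ξ,
            p := fun x => S.p x.1 * π x.2,
            p_pos := fun x => mul_pos (S.p_pos _) (hπ _),
            p_sum := ?_,
            F := stepF J S.p S.F,
            lam := fun x => Sum.elim (2 • S.lam x.1) (ζ x.2),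
            G := fun t => stepG S.p S.lam H S.G t,
            F_smul := ?_, F_le := ?_,
            lin := step_lin J S.p_pos S.p_sum hε₀ hef S.lin hπ hπ1 hζ (by linarith),
            up := step_up J S.p_pos S.p_sum hε₀ S.lin H S.G S.up he2,
            down := step_down n J hJ S.p_pos S.p_sum hε₀ hε₀1 S.lin H S.G S.down hK0 hK
              (by linarith),
            G_zero := ?_, nonconvex := ?_ }⟩
  · rw [Fintype.sum_prod_type]
    simp only [← Finset.mul_sum, hπ1, mul_one, S.p_sum]
  · intro a v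
    have h1 : (a • v) ∘ Sum.inl = a • (v ∘ Sum.inl) := rfl
    have h2 : (a • v) ∘ Sum.inr = a • (v ∘ Sum.inr) := rfl
    simp only [stepF]
    rw [h1, h2, S.F_smul, lev_smul]
    ring
  · intro v
    have h1 := S.F_le (v ∘ Sum.inl)
    have h2 := lev_le J (fun i => S.p i.1) (v ∘ Sum.inr)
    have h3 : (1 : ℝ) ≤ 2 ^ (n + 1) := one_le_pow₀ (by norm_num)
    have h4 := N1_nonneg (v ∘ Sum.inr)
    simp only [stepF]
    calc |2 * S.F (v ∘ Sum.inl) + lev J (fun i => S.p i.1) (v ∘ Sum.inr)|
        ≤ |2 * S.F (v ∘ Sum.inl)| + |lev J (fun i => S.p i.1) (v ∘ Sum.inr)| := abs_add_le _ _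
      _ ≤ 2 * (2 ^ n * N1 (v ∘ Sum.inl)) + N1 (v ∘ Sum.inr) := by
          rw [abs_mul, abs_two]; linarith
      _ ≤ 2 ^ (n + 1) * N1 v := by
          rw [N1_sum v, pow_succ]
          have : N1 (v ∘ Sum.inr) ≤ 2 ^ (n+1) * N1 (v ∘ Sum.inr) := by nlinarith
          rw [pow_succ] at this
          linarith
  · funext i
    rw [stepG_apply]
    have h0 : ((0 : S.ι ⊕ (S.Ω × Fin (4 ^ J)) → ℝ) ∘ Sum.inl) = 0 := rfl
    rcases i with i | i
    · simp only [zero_div, h0, S.G_zero, Sum.elim_inl, Pi.zero_apply]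
    · simp only [h0, Sum.elim_inr, Pi.sub_apply, Function.comp_apply, Pi.zero_apply, disp, phase,
        dot_zero, mul_zero, sub_zero, H.psi_zero]
  · intro _
    by_cases hn : n = 0
    · subst hn
      refine ⟨4 ^ J, fun l => Sum.elim 0 (fun i => S.p i.1 * (if i.2 = l then 1 else 0)),
        by positivity, ?_, ?_, ?_⟩
      · intro l
        rw [N1_elim, N1_zero, zero_add]
        exact (lev_single J S.p S.p_pos S.p_sum l).1.le
      · intro l
        simp only [stepF, Sum.elim_comp_inl, Sum.elim_comp_inr]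
        rw [(lev_single J S.p S.p_pos S.p_sum l).2]
        have := S.F_smul 0 0
        simp at this
        simp [this]
      · have h0 : S.F 0 = 0 := by
          have := S.F_smul 0 0
          simpa using this
        have h1 := (lev_avg J hJ S.p S.p_pos S.p_sum).2
        have h2 : (((1 / ((4 ^ J : ℕ) : ℝ)) • ∑ l : Fin (4 ^ J), Sum.elim (0 : S.ι → ℝ)
            (fun i : S.Ω × Fin (4 ^ J) => S.p i.1 * (if i.2 = l then 1 else 0)))) =
            Sum.elim (0 : S.ι → ℝ) (fun i : S.Ω × Fin (4 ^ J) => S.p i.1 * (1 / (4 ^ J : ℝ))) := by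
          funext i
          rcases i with i | i
          · rw [Pi.smul_apply, Finset.sum_apply]
            simp only [Sum.elim_inl, Pi.zero_apply, Finset.sum_const_zero, smul_zero]
          · rw [Pi.smul_apply, Finset.sum_apply]
            simp only [Sum.elim_inr, smul_eq_mul, mul_ite, mul_one, mul_zero, Finset.sum_ite_eq,
              Finset.mem_univ, if_true, Nat.cast_pow, Nat.cast_ofNat]
            ring
        rw [h2]
        simp only [stepF, Sum.elim_comp_inl, Sum.elim_comp_inr, h0, h1]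
        norm_num
    · obtain ⟨k, e, hk, he, hF, hav⟩ := S.nonconvex hn
      refine ⟨k, fun i => Sum.elim (e i) 0, hk, ?_, ?_, ?_⟩
      · intro i
        rw [N1_elim, N1_zero, add_zero]
        exact he i
      · intro i
        have hl : lev J (fun i : S.Ω × Fin (4 ^ J) => S.p i.1) 0 = 0 := by
          have := lev_smul J (fun i : S.Ω × Fin (4 ^ J) => S.p i.1) 0 0
          simpa using this
        simp only [stepF, Sum.elim_comp_inl, Sum.elim_comp_inr, hF, hl]
        norm_num
      · have hl : lev J (fun i : S.Ω × Fin (4 ^ J) => S.p i.1) 0 = 0 := by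
          have := lev_smul J (fun i : S.Ω × Fin (4 ^ J) => S.p i.1) 0 0
          simpa using this
        have h2 : (1 / (k : ℝ)) • ∑ i, Sum.elim (e i) (0 : S.Ω × Fin (4 ^ J) → ℝ) =
            Sum.elim ((1 / (k : ℝ)) • ∑ i, e i) 0 := by
          funext i
          rcases i with i | i
          · simp [Finset.sum_apply]
          · simp [Finset.sum_apply]
        rw [h2]
        simp only [stepF, Sum.elim_comp_inl, Sum.elim_comp_inr, hl]
        have h3 : n + 1 - 1 = (n - 1) + 1 := by omega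
        rw [h3, pow_succ]
        linarith

theorem exists_stage (n : ℕ) (ε : ℝ) (hε : 0 < ε) : Nonempty (Stage n ε) := by
  induction n generalizing ε with
  | zero => exact stage_zero ε hε
  | succ n ih => exact stage_succ n ih ε hε

end Pool.Agent.W_MP_68deb0_h42
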