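import Pool.Agent.W_MP_68deb0_h42.StepDef
import Pool.Agent.W_MP_68deb0_h42.LevLeaf

set_option autoImplicit false

namespace Pool.Agent.W_MP_68deb0_h42

open Finset

variable {Ω : Type} [Fintype Ω]

/-- The core of the lower estimate, for fixed vectors: `b` the new
difference in the target, then the leaf displacement, `w` the error. -/
theorem step_down_core (J : ℕ) (hJ : 0 < J) {p : Ω → ℝ} (hp : ∀ ω, 0 < p ω)
    (h1 : ∑ ω, p ω = 1) {K : ℝ} (hK0 : 0 ≤ K)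
    (hK : ∀ x y : Ω × Fin (4 ^ J) → ℝ,
      |lev J (fun i => p i.1) (x + y) - lev J (fun i => p i.1) x - lev J (fun i => p i.1) y|
        ≤ K * (N1 x + N1 y))
    (D : ℝ) (q : Ω → Fin (4 ^ J) → ℝ) (hq : ∀ ω l, 0 ≤ q ω l) (hq1 : ∀ ω, ∑ l, q ω l = 1)
    (hB : ∀ ω, ((univ.filter (fun l => q ω l ≠ 0)).card : ℝ) ≤ |D| + 2)
    (b w : Ω × Fin (4 ^ J) → ℝ)
    (hw0 : N1 (fun i : Ω × Fin (4 ^ J) => p i.1 * (D * (1 / (4 ^ J : ℝ) - q i.1 i.2))) ≤ 2 * |D|) :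
    N1 (b + ((fun i : Ω × Fin (4 ^ J) => p i.1 * (D * (1 / (4 ^ J : ℝ) - q i.1 i.2))) + w)) +
      4 * |D - lev J (fun i => p i.1)
        (b + ((fun i : Ω × Fin (4 ^ J) => p i.1 * (D * (1 / (4 ^ J : ℝ) - q i.1 i.2))) + w))|
      ≤ 2 * |D| + 5 * N1 b + ((5 + 8 * K) * N1 w + |D| * ((|D| + 2) / J + 24 * K)
        + 4 * K * N1 b) := by
  have hleaf := lev_leaf J hJ p hp h1 (|D| + 2) K D q hq hq1 hB hK
  set w0 : Ω × Fin (4 ^ J) → ℝ := fun i => p i.1 * (D * (1 / (4 ^ J : ℝ) - q i.1 i.2)) with hw0d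
  have hJ' : (0 : ℝ) < J := by exact_mod_cast hJ
  have e1 := hK b (w0 + w)
  have e2 := hK w0 w
  have e3 := lev_le J (fun i : Ω × Fin (4 ^ J) => p i.1) b
  have e4 := lev_le J (fun i : Ω × Fin (4 ^ J) => p i.1) w
  have n1 := N1_add_le b (w0 + w)
  have n2 := N1_add_le w0 w
  have nb := N1_nonneg b
  have nw := N1_nonneg w
  have n0 := N1_nonneg w0
  have m1 : K * N1 (w0 + w) ≤ K * N1 w0 + K * N1 w := by
    rw [← mul_add]
    exact mul_le_mul_of_nonneg_left n2 hK0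
  have m2 : K * N1 w0 ≤ K * (2 * |D|) := mul_le_mul_of_nonneg_left hw0 hK0
  have m3 : |D| * ((|D| + 2) / J + 24 * K) = 4 * (|D| * ((|D| + 2) / (4 * J) + 2 * K)) +
      16 * (K * |D|) := by
    field_simp
    ring
  rw [m3]
  set P := |D| * ((|D| + 2) / (4 * J) + 2 * K) with hP
  have key : |D - lev J (fun i => p i.1) (b + (w0 + w))| ≤
      N1 b + P + N1 w + K * (N1 b + N1 (w0 + w)) + K * (N1 w0 + N1 w) := by
    have a1 := abs_le.1 e1
    have a2 := abs_le.1 e2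
    have a3 := abs_le.1 e3
    have a4 := abs_le.1 e4
    have a5 := abs_le.1 hleaf
    rw [abs_le]
    constructor
    · linarith [a1.1, a1.2, a2.1, a2.2, a3.1, a3.2, a4.1, a4.2, a5.1, a5.2]
    · linarith [a1.1, a1.2, a2.1, a2.2, a3.1, a3.2, a4.1, a4.2, a5.1, a5.2]
  have k1 : K * (N1 b + N1 (w0 + w)) = K * N1 b + K * N1 (w0 + w) := by ring
  have k2 : K * (N1 w0 + N1 w) = K * N1 w0 + K * N1 w := by ring
  have k3 : (5 + 8 * K) * N1 w = 5 * N1 w + 8 * (K * N1 w) := by ring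
  have k4 : 4 * K * N1 b = 4 * (K * N1 b) := by ring
  have k5 : K * (2 * |D|) = 2 * (K * |D|) := by ring
  rw [k3, k4]
  rw [k1, k2] at key
  rw [k5] at m2
  linarith

end Pool.Agent.W_MP_68deb0_h42
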