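import Pool.Agent.W_MP_68deb0_h42.Basic

set_option autoImplicit false

namespace Pool.Agent.W_MP_68deb0_h42

open Finset

variable {ι Ω : Type} [Fintype ι] [Fintype Ω]

/-- The function of the next stage. -/
noncomputable def stepF (J : ℕ) (p : Ω → ℝ) (F : (ι → ℝ) → ℝ) (v : ι ⊕ (Ω × Fin (4 ^ J)) → ℝ) : ℝ :=
  2 * F (v ∘ Sum.inl) + lev J (fun i => p i.1) (v ∘ Sum.inr)

/-- The phases of the next stage. -/
noncomputable def phase (lam : Ω → ι → ℝ) (t : ℝ) (v : ι → ℝ) : Ω → ℝ :=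
  fun ω => t - 2 * dot (lam ω) v

/-- The nonlinear map of the next stage. -/
noncomputable def stepG {m : ℕ} (p : Ω → ℝ) (lam : Ω → ι → ℝ) (H : Helix m)
    (G : ℝ → (ι → ℝ) ≃ (ι → ℝ)) (t : ℝ) :
    (ι ⊕ (Ω × Fin m) → ℝ) ≃ (ι ⊕ (Ω × Fin m) → ℝ) where
  toFun v := Sum.elim (G (t / 2) (v ∘ Sum.inl))
    (v ∘ Sum.inr - disp p H (phase lam t (v ∘ Sum.inl)))
  invFun w := Sum.elim ((G (t / 2)).symm (w ∘ Sum.inl))
    (w ∘ Sum.inr + disp p H (phase lam t ((G (t / 2)).symm (w ∘ Sum.inl))))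
  left_inv v := by
    simp
  right_inv w := by
    simp

theorem stepG_apply {m : ℕ} (p : Ω → ℝ) (lam : Ω → ι → ℝ) (H : Helix m)
    (G : ℝ → (ι → ℝ) ≃ (ι → ℝ)) (t : ℝ) (v : ι ⊕ (Ω × Fin m) → ℝ) :
    stepG p lam H G t v = Sum.elim (G (t / 2) (v ∘ Sum.inl))
      (v ∘ Sum.inr - disp p H (phase lam t (v ∘ Sum.inl))) := rfl

/-- The norm of a difference of values of `stepG`. -/
theorem N1_stepG_sub {m : ℕ} (p : Ω → ℝ) (lam : Ω → ι → ℝ) (H : Helix m)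
    (G : ℝ → (ι → ℝ) ≃ (ι → ℝ)) (t t' : ℝ) (v v' : ι ⊕ (Ω × Fin m) → ℝ) :
    N1 (stepG p lam H G t v - stepG p lam H G t' v') =
      N1 (G (t / 2) (v ∘ Sum.inl) - G (t' / 2) (v' ∘ Sum.inl)) +
      N1 ((v ∘ Sum.inr - v' ∘ Sum.inr) -
        (disp p H (phase lam t (v ∘ Sum.inl)) - disp p H (phase lam t' (v' ∘ Sum.inl)))) := by
  rw [N1_sum]
  congr 2
  funext i
  simp only [stepG_apply, Pi.sub_apply, Function.comp_apply, Sum.elim_inr]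
  ring

end Pool.Agent.W_MP_68deb0_h42
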